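import Pool.Agent.H.MP_99598b_lc.C

/-! Bounded witnesses for the operator SHPS. -/

namespace Pool.Agent.H.MP_99598b_lc

open Function Pool.Agent.H.MP_88bd66_lc

section
variable {M G : Type} [Semigroup M] [Group G] (γ : M → M → G)

/-- Use of one entry of the multiplication table inside a longer word. -/
def Mv (u v : List M) : Prop := ∃ p q x y, (p ≠ [] ∨ q ≠ []) ∧
  ((u = p ++ [x, y] ++ q ∧ v = p ++ [x * y] ++ q) ∨ (v = p ++ [x, y] ++ q ∧ u = p ++ [x * y] ++ q))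

/-- Sets of paths closed under equality in the path semigroup and under moves. -/
def Closed (Γ : Gr M) (Ω : Set (List M)) : Prop :=
  ∀ u ∈ Ω, Path Γ u ∧ (∀ v, Path Γ v → sgn γ v = sgn γ u → v ∈ Ω) ∧ ∀ v, Mv u v → v ∈ Ω

/-- The least graph protecting `u`. -/
def Gs (u : List M) : Gr M :=
  (fun x => ∀ Γ Ω, Closed γ Γ Ω → u ∈ Ω → Γ.1 x,
    fun x y => ∀ Γ Ω, Closed γ Γ Ω → u ∈ Ω → Γ.2 x y)

/-- The least closed set containing `u`. -/
def Os (u : List M) : Set (List M) := {w | ∀ Γ Ω, Closed γ Γ Ω → u ∈ Ω → w ∈ Ω}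

variable {γ}

theorem Gs_le {u : List M} {Γ : Gr M} {Ω : Set (List M)} (h : Closed γ Γ Ω) (hu : u ∈ Ω) :
    Gs γ u ≤ Γ := ⟨fun _ hx => hx Γ Ω h hu, fun _ _ hx => hx Γ Ω h hu⟩

theorem Mv.ne {u v : List M} (h : Mv u v) : v ≠ [] := by
  obtain ⟨p, q, x, y, -, ⟨-, rfl⟩ | ⟨rfl, -⟩⟩ := h <;> simp

theorem path_all {ι : Type} {Γ : Gr M} {Δ : ι → Gr M} {w : List M} (hw : w ≠ [])
    (h1 : ∀ x, (∀ i, (Δ i).1 x) → Γ.1 x) (h2 : ∀ x y, (∀ i, (Δ i).2 x y) → Γ.2 x y)
    (h : ∀ i, Path (Δ i) w) : Path Γ w := by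
  refine ⟨hw, fun x hx => h1 x fun i => (h i).2.1 x hx, ?_⟩
  rw [List.isChain_iff_getElem]
  intro k hk
  exact h2 _ _ fun i => List.isChain_iff_getElem.1 (h i).2.2 k hk

theorem closed_s {u : List M} (hu : u ≠ []) : Closed γ (Gs γ u) (Os γ u) := by
  intro w hw
  refine ⟨?_, fun v hv hs Γ Ω h hu' => (h w (hw Γ Ω h hu')).2.1 v (hv.mono (Gs_le h hu')) hs,
    fun v hv Γ Ω h hu' => (h w (hw Γ Ω h hu')).2.2 v hv⟩
  have h0 : Closed γ (fun _ => True, fun _ _ => True) {w : List M | w ≠ []} := fun w hw =>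
    ⟨⟨hw, fun _ _ => trivial, List.isChain_iff_getElem.2 fun _ _ => trivial⟩,
      fun v hv _ => hv.1, fun v hv => hv.ne⟩
  exact path_all (ι := {p : Gr M × Set (List M) // Closed γ p.1 p.2 ∧ u ∈ p.2})
    (Δ := fun p => p.1.1) (hw _ _ h0 hu) (fun x hx Γ Ω h hu' => hx ⟨(Γ, Ω), h, hu'⟩)
    (fun x y hx Γ Ω h hu' => hx ⟨(Γ, Ω), h, hu'⟩) (fun p => (p.2.1 w (hw _ _ p.2.1 p.2.2)).1)

end

section
variable {I M Q : Type} {S : I → Type} [∀ i, Semigroup (S i)] [∀ i, Nonempty (S i)]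
  {zer : ∀ i, S i → Prop} {n : ℕ} [Semigroup M] [Semigroup Q]

open Classical in
/-- The value of `u` on `J`, and `z` elsewhere. -/
noncomputable def red (t : M → ∀ i, S i) (z : ∀ i, S i) (J : Set I) (u : List M) : ∀ i, S i :=
  fun i => if i ∈ J then vl t u i else z i

variable {t : M → ∀ i, S i} {z : ∀ i, S i} {J : Set I}

theorem red_left (hN : ∀ i, Nice (zer i) n) (hJ : ∀ i ∉ J, zer i (z i)) {p r : List M}
    (hp : p ≠ []) (hr : r ≠ []) : red t z J (p ++ r) = red t z J p * vl t r := by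
  funext i
  by_cases h : i ∈ J
  · simp only [red, if_pos h, Pi.mul_apply, vl_append t hp hr]
  · simp only [red, if_neg h, Pi.mul_apply]
    exact (hN i).uniq _ _ (hJ i h) ((hN i).left _ _ (hJ i h))

theorem red_right (hN : ∀ i, Nice (zer i) n) (hJ : ∀ i ∉ J, zer i (z i)) {p r : List M}
    (hp : p ≠ []) (hr : r ≠ []) : red t z J (p ++ r) = vl t p * red t z J r := by
  funext i
  by_cases h : i ∈ J
  · simp only [red, if_pos h, Pi.mul_apply, vl_append t hp hr]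
  · simp only [red, if_neg h, Pi.mul_apply]
    exact (hN i).uniq _ _ (hJ i h) ((hN i).right _ _ (hJ i h))

variable [Nonempty M] {π : (∀ i, S i) →ₙ* Q} {ι : M →ₙ* Q}

theorem pi_vl (ht : ∀ x, π (t x) = ι x) {u : List M} (hu : u ≠ []) :
    π (vl t u) = ι (vl id u) := by
  have : Nonempty Q := ⟨ι (Classical.arbitrary M)⟩
  rw [map_vl _ π hu, map_vl _ ι hu]
  simp only [ht, id]

theorem red_mv (hN : ∀ i, Nice (zer i) n) (ht : ∀ x, π (t x) = ι x)
    (hJ : ∀ i ∉ J, zer i (z i)) {u v : List M} (h : Mv u v) :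
    π (red t z J v) = π (red t z J u) := by
  have key : ∀ (p q : List M) x y, (p ≠ [] ∨ q ≠ []) →
      π (red t z J (p ++ [x, y] ++ q)) = π (red t z J (p ++ [x * y] ++ q)) := by
    intro p q x y hpq
    have h1 := vl_ctx (id : M → M) (u := [x, y]) (v := [x * y]) (by simp) (by simp) rfl
    rcases hpq with hp | hq
    · rw [List.append_assoc, List.append_assoc, red_left hN hJ hp (by simp),
        red_left hN hJ hp (by simp), map_mul, map_mul, pi_vl ht (by simp), pi_vl ht (by simp)]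
      exact congrArg (fun a => _ * ι a) (h1 [] q)
    · rw [red_right hN hJ (by simp) hq, red_right hN hJ (by simp) hq, map_mul, map_mul,
        pi_vl ht (by simp), pi_vl ht (by simp)]
      have h2 := h1 p []
      rw [List.append_nil, List.append_nil] at h2
      rw [h2]
  obtain ⟨p, q, x, y, hpq, ⟨rfl, rfl⟩ | ⟨rfl, rfl⟩⟩ := h
  · exact (key p q x y hpq).symm
  · exact key p q x y hpq

theorem red_sgn [Finite M] (hN : ∀ i, Nice (zer i) n) (ht : ∀ x, π (t x) = ι x)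
    (hJ : ∀ i ∉ J, zer i (z i)) {Γ : Gr M} (hΓ : ∀ i ∈ J, Γ ≤ nat (zer i) fun y => t y i)
    {u v : List M} (hu : Path Γ u) (hv : Path Γ v)
    (h : sgn (gen M (kk (Nat.card M) (Nat.card M))) u =
      sgn (gen M (kk (Nat.card M) (Nat.card M))) v) : π (red t z J u) = π (red t z J v) := by
  classical
  refine key (F := fun p => π (red t z J p))
    (fun p => ((vl id p, if p.dropLast = [] then none else some (vl id p.dropLast),
      p.getLast?) : M × Option M × Option M))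
    (kk_le (m := Nat.card M) (by
      rw [Nat.card_prod, Nat.card_prod, Finite.card_option]
      nlinarith [Nat.zero_le (Nat.card M)])) (fun p p' hp hp' he q => ?_)
    (fun x c hc hl => ⟨(List.replicate n c).flatten, fun p q => ?_⟩) hu hv h
  · simp only [Prod.mk.injEq] at he
    by_cases hq : q = []
    · obtain ⟨r, y, rfl⟩ := (List.eq_nil_or_concat p).resolve_left hp
      obtain ⟨r', y', rfl⟩ := (List.eq_nil_or_concat p').resolve_left hp'
      simp only [List.concat_eq_append, List.dropLast_concat, List.getLast?_concat,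
        Option.some.injEq] at he
      obtain ⟨-, h1, rfl⟩ := he
      simp only [hq, List.concat_eq_append, List.append_nil]
      by_cases h2 : r = [] <;> by_cases h3 : r' = []
      · rw [h2, h3]
      · simp [h2, h3] at h1
      · simp [h2, h3] at h1
      · simp only [if_neg h2, if_neg h3, Option.some.injEq] at h1
        rw [red_right hN hJ h2 (by simp), red_right hN hJ h3 (by simp), map_mul, map_mul,
          pi_vl ht h2, pi_vl ht h3, h1]
    · show π (red t z J (p ++ q)) = π (red t z J (p' ++ q))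
      rw [red_right hN hJ hp hq, red_right hN hJ hp' hq, map_mul, map_mul, pi_vl ht hp,
        pi_vl ht hp', he.1]
  · show π (red t z J _) = π (red t z J _)
    congr 1
    funext i
    by_cases hi : i ∈ J
    · simp only [red, if_pos hi]
      rw [vl_apply t (by simp), vl_apply t (by simp), (hN i).ctx (hc.mono (hΓ i hi)) hl]
    · simp only [red, if_neg hi]

theorem claim [Finite I] [Finite M] (hN : ∀ i, Nice (zer i) n) (ht : ∀ x, π (t x) = ι x)
    (hz : ∀ i a, zer i a → zer i (z i)) {u : List M} (hu : u ≠ []) :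
    ∃ J : Set I, (∀ i, i ∈ J ↔ Gs (gen M (kk (Nat.card M) (Nat.card M))) u ≤
        nat (zer i) fun y => t y i) ∧ π (red t z J u) = ι (vl id u) ∧
      ∀ w ∈ Os (gen M (kk (Nat.card M) (Nat.card M))) u, π (red t z J w) = π (red t z J u) := by
  classical
  set γ := gen M (kk (Nat.card M) (Nat.card M)) with hγ
  obtain ⟨J, -, hJ⟩ := Finite.exists_le_minimal (p := fun J : Set I =>
    (∀ i, (Gs γ u ≤ nat (zer i) fun y => t y i) → i ∈ J) ∧ (∀ i ∉ J, zer i (z i)) ∧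
      π (red t z J u) = ι (vl id u)) (a := Set.univ)
    ⟨fun _ _ => trivial, fun i hi => absurd trivial hi, by
      rw [← pi_vl ht hu]; congr 1; funext i; exact if_pos trivial⟩
  let Γ : Gr M := (fun x => (Gs γ u).1 x ∧ ∀ i ∈ J, ¬zer i (t x i),
    fun x y => (Gs γ u).2 x y ∧ ∀ i ∈ J, ¬zer i (t x i * t y i))
  have hΓ : Γ ≤ Gs γ u := ⟨fun _ h => h.1, fun _ _ h => h.1⟩
  have hΓ' : ∀ i ∈ J, Γ ≤ nat (zer i) fun y => t y i :=
    fun i hi => ⟨fun _ h => h.2 i hi, fun _ _ h => h.2 i hi⟩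
  have hc := closed_s (γ := γ) hu
  have h1 : Closed γ Γ {w | w ∈ Os γ u ∧ ∀ J' ⊆ J, (∀ i ∉ J', zer i (z i)) →
      π (red t z J' w) = π (red t z J' u)} := by
    rintro w ⟨hw, hw'⟩
    have pw := (hc w hw).1
    have h2 : ∀ i ∈ J, Path (nat (zer i) fun y => t y i) w := by
      intro i hi
      by_contra h3
      have h4 := h3
      rw [(hN i).path_iff pw.1, not_not] at h4
      have h5 : ∀ l ∉ J \ {i}, zer l (z l) := by
        intro l hl
        by_cases h6 : l = i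
        · subst h6; exact hz _ _ h4
        · exact hJ.1.2.1 l fun h7 => hl ⟨h7, h6⟩
      have h6 : red t z (J \ {i}) w = red t z J w := by
        funext l
        by_cases h6 : l = i
        · subst h6
          rw [red, red, if_neg (by simp), if_pos hi, vl_apply t pw.1]
          exact (hN l).uniq _ _ (hz _ _ h4) h4
        · simp [red, h6]
      have h7 := hJ.2 (y := J \ {i}) ⟨fun l hl => ⟨hJ.1.1 l hl, fun h8 => h3 (by
          rw [Set.mem_singleton_iff] at h8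
          subst h8
          exact pw.mono hl)⟩, h5, by
        rw [← hw' _ Set.diff_subset h5, h6, hw' J le_rfl hJ.1.2.1, hJ.1.2.2]⟩ Set.diff_subset
      exact (h7 hi).2 rfl
    have h3 : Path Γ w := path_all (ι := Option J)
      (Δ := fun o => o.elim (Gs γ u) fun i => nat (zer i) fun y => t y i) pw.1
      (fun x hx => ⟨hx none, fun i hi => hx (some ⟨i, hi⟩)⟩)
      (fun x y hx => ⟨hx none, fun i hi => hx (some ⟨i, hi⟩)⟩)
      (fun o => by
        cases o with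
        | none => exact pw
        | some i => exact h2 i i.2)
    exact ⟨h3, fun v hv hs => ⟨(hc w hw).2.1 v (hv.mono hΓ) hs, fun J' h4 h5 =>
      (red_sgn hN ht h5 (fun i hi => hΓ' i (h4 hi)) hv h3 hs).trans (hw' J' h4 h5)⟩,
      fun v hv => ⟨(hc w hw).2.2 v hv, fun J' h4 h5 =>
        (red_mv hN ht h5 hv).trans (hw' J' h4 h5)⟩⟩
  have h2 : u ∈ {w | w ∈ Os γ u ∧ ∀ J' ⊆ J, (∀ i ∉ J', zer i (z i)) →
      π (red t z J' w) = π (red t z J' u)} := ⟨fun _ _ _ h => h, fun _ _ _ => rfl⟩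
  exact ⟨J, fun i => ⟨fun hi => (Gs_le h1 h2).trans (hΓ' i hi), hJ.1.1 i⟩, hJ.1.2.2,
    fun w hw => (hw _ _ h1 h2).2 J le_rfl hJ.1.2.1⟩

theorem val_eq [Finite I] [Finite M] (hN : ∀ i, Nice (zer i) n) (ht : ∀ x, π (t x) = ι x)
    (hι : Injective ι) {u v : List M} (hu : u ≠ []) (hv : v ≠ [])
    (h : ∀ Γ Ω, Closed (gen M (kk (Nat.card M) (Nat.card M))) Γ Ω → (u ∈ Ω ↔ v ∈ Ω)) :
    vl id u = vl id v := by
  classical
  have h1 : ∀ i, ∃ b : S i, ∀ a, zer i a → zer i b := fun i => by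
    by_cases h1 : ∃ a, zer i a
    · exact ⟨_, fun _ _ => h1.choose_spec⟩
    · exact ⟨Classical.arbitrary _, fun a ha => absurd ⟨a, ha⟩ h1⟩
  choose z hz using h1
  obtain ⟨J, h1, h2, h3⟩ := claim hN ht hz hu
  obtain ⟨J', h1', h2', -⟩ := claim hN ht hz hv
  have h4 : Gs (gen M (kk (Nat.card M) (Nat.card M))) u = Gs _ v :=
    le_antisymm (Gs_le (closed_s hv) ((h _ _ (closed_s hv)).2 fun _ _ _ h => h))
      (Gs_le (closed_s hu) ((h _ _ (closed_s hu)).1 fun _ _ _ h => h))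
  have h5 : J = J' := Set.ext fun i => by rw [h1, h1', h4]
  subst h5
  exact hι (by rw [← h2, ← h2', h3 v fun Γ Ω hc hu' => (h Γ Ω hc).1 hu'])

end

/-- Multiplication by optional left and right factors. -/
def ctx {T : Type} [Mul T] (c d : Option T) (a : T) : T :=
  d.elim (c.elim a (· * a)) (c.elim a (· * a) * ·)

/-- The syntactic congruence of a family of subsets. -/
def synt {T M : Type} [Semigroup T] (Inv : T → M → Prop) : Con T where
  r a b := ∀ c d m, Inv (ctx c d a) m ↔ Inv (ctx c d b) m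
  iseqv := ⟨fun _ _ _ _ => Iff.rfl, fun h c d m => (h c d m).symm,
    fun h h' c d m => (h c d m).trans (h' c d m)⟩
  mul' := by
    intro w x y z h h' c d m
    have h1 : ∀ a b : T, ctx c d (a * b) = ctx c (some (ctx none d b)) a := fun a b => by
      cases c <;> cases d <;> simp [ctx, mul_assoc]
    have h2 : ∀ a b : T, ctx c d (a * b) = ctx (some (ctx c none a)) d b := fun a b => by
      cases c <;> cases d <;> simp [ctx, mul_assoc]
    rw [h1 w y, h, ← h1 x y, h2 x y, h', ← h2 x z]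

theorem shps {I M Q : Type} {S : I → Type} [∀ i, Semigroup (S i)] [∀ i, Nonempty (S i)]
    {zer : ∀ i, S i → Prop} {n : ℕ} [Semigroup M] [Semigroup Q] [Finite I] [Finite M]
    [Nonempty M] (hN : ∀ i, Nice (zer i) n) (π : (∀ i, S i) →ₙ* Q) (hπ : Surjective π)
    (ι : M →ₙ* Q) (hι : Injective ι) :
    ∃ F : Fam (β (Nat.card M)) (SubZS (β (Nat.card M))), ∃ (Q' : Type) (_ : Semigroup Q')
      (π' : (∀ j, F.V j) →ₙ* Q') (ι' : M →ₙ* Q'), Surjective π' ∧ Injective ι' := by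
  choose t ht using fun x => hπ (ι x)
  let γ := gen M (kk (Nat.card M) (Nat.card M))
  let T := ∀ Γ : {_Γ : Gr M // True}, UU Γ.1 γ
  let φ : ∀ u : List M, u ≠ [] → T := fun u hu Γ => ⟨cl Γ.1 γ u, u, hu, rfl⟩
  let Sim : T → T → Prop := fun a b => ∀ Γ Ω, Closed γ Γ Ω →
    ((∃ u ∈ Ω, (a ⟨Γ, trivial⟩).1 = cl Γ γ u) ↔ ∃ u ∈ Ω, (b ⟨Γ, trivial⟩).1 = cl Γ γ u)
  have h1 : ∀ Γ Ω, Closed γ Γ Ω → ∀ w, w ≠ [] → ((∃ u ∈ Ω, cl Γ γ w = cl Γ γ u) ↔ w ∈ Ω) := by
    intro Γ Ω hc w hw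
    refine ⟨?_, fun h => ⟨w, h, rfl⟩⟩
    rintro ⟨u, hu, h⟩
    obtain ⟨h2, h3⟩ := path_of_cl hw (hc u hu).1 h
    exact (hc u hu).2.1 w h2 h3
  let Inv : T → M → Prop := fun a m => ∃ u hu, vl id u = m ∧ Sim a (φ u hu)
  have h2 : ∀ u hu m, Inv (φ u hu) m ↔ vl id u = m := by
    intro u hu m
    refine ⟨?_, fun h => ⟨u, hu, h, fun _ _ _ => Iff.rfl⟩⟩
    rintro ⟨v, hv, rfl, h⟩
    exact val_eq hN ht hι hu hv fun Γ Ω hc =>
      (h1 Γ Ω hc u hu).symm.trans ((h Γ Ω hc).trans (h1 Γ Ω hc v hv))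
  have h3 : ∀ (c d : Option T) Γ, ∃ p q : List M, (c ≠ none → p ≠ []) ∧ (d ≠ none → q ≠ []) ∧
      ∀ u hu, (ctx c d (φ u hu) Γ).1 = cl Γ.1 γ (p ++ u ++ q) := by
    intro c d Γ
    rcases c with _ | c <;> rcases d with _ | d
    · exact ⟨[], [], by simp, by simp, fun u hu => by simp [ctx, φ]⟩
    · obtain ⟨q, hq, h⟩ := (d Γ).2
      exact ⟨[], q, by simp, fun _ => hq, fun u hu => by
        rw [List.nil_append, cl_append hu hq, ← h]; rfl⟩
    · obtain ⟨p, hp, h⟩ := (c Γ).2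
      exact ⟨p, [], fun _ => hp, by simp, fun u hu => by
        rw [List.append_nil, cl_append hp hu, ← h]; rfl⟩
    · obtain ⟨p, hp, h⟩ := (c Γ).2
      obtain ⟨q, hq, h'⟩ := (d Γ).2
      exact ⟨p, q, fun _ => hp, fun _ => hq, fun u hu => by
        rw [cl_append (by simp [hp]) hq, cl_append hp hu, ← h, ← h']; rfl⟩
  have h4 : ∀ x y : M, synt Inv (φ [x * y] (by simp)) (φ [x, y] (by simp)) := by
    intro x y c d m
    by_cases hcd : c = none ∧ d = none
    · rw [hcd.1, hcd.2]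
      exact (h2 [x * y] (by simp) m).trans (h2 [x, y] (by simp) m).symm
    have h5 : Sim (ctx c d (φ [x * y] (by simp))) (ctx c d (φ [x, y] (by simp))) := by
      intro Γ Ω hc
      obtain ⟨p, q, hp, hq, h⟩ := h3 c d ⟨Γ, trivial⟩
      have hpq : p ≠ [] ∨ q ≠ [] := (not_and_or.1 hcd).imp hp hq
      rw [h [x * y] (by simp), h [x, y] (by simp), h1 Γ Ω hc (p ++ [x * y] ++ q) (by simp),
        h1 Γ Ω hc (p ++ [x, y] ++ q) (by simp)]
      exact ⟨fun h6 => (hc _ h6).2.2 _ ⟨p, q, x, y, hpq, Or.inr ⟨rfl, rfl⟩⟩,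
        fun h6 => (hc _ h6).2.2 _ ⟨p, q, x, y, hpq, Or.inl ⟨rfl, rfl⟩⟩⟩
    exact ⟨fun ⟨u, hu, h6, h7⟩ => ⟨u, hu, h6, fun Γ Ω hc => (h5 Γ Ω hc).symm.trans (h7 Γ Ω hc)⟩,
      fun ⟨u, hu, h6, h7⟩ => ⟨u, hu, h6, fun Γ Ω hc => (h5 Γ Ω hc).trans (h7 Γ Ω hc)⟩⟩
  refine ⟨mkFam (Y := M) (Nat.card M) (by unfold β; omega) _ (fun _ => True) ⟨⊤, trivial⟩
    (fun Γ _ => subZS_UU _ Γ (by unfold β bd; omega)), (synt Inv).Quotient, inferInstance,
    ⟨fun a => (a : (synt Inv).Quotient), fun _ _ => rfl⟩,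
    ⟨fun x => (φ [x] (by simp) : (synt Inv).Quotient), fun x y => ?_⟩,
    fun a => Quotient.exists_rep a, fun x y h => ?_⟩
  · exact (Con.eq _).2 (h4 x y)
  · exact ((h2 [y] (by simp) x).1 ((((Con.eq _).1 h) none none x).1
      ((h2 [x] (by simp) x).2 rfl))).symm

end Pool.Agent.H.MP_99598b_lc
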