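import Pool.Agent.H.MP_99598b_lc.D
import Pool.Agent.Lib.helper21.PR

/-! Bounded operators preserve decidability. -/

namespace Pool.Agent.H.MP_99598b_lc

open Function Pool.Agent.Lib.helper21.PR

attribute [local irreducible] Primrec Computable

/-- The multiplication table with respect to an enumeration of the elements. -/
def tab {M : Type} [Mul M] {n : ℕ} (e : Fin n ≃ M) : List (List ℕ) :=
  List.ofFn fun i => List.ofFn fun j => (e.symm (e i * e j) : ℕ)

/-- Table look-up. -/
def op (t : List (List ℕ)) (i j : ℕ) : ℕ := (t.getD i []).getD j 0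

/-- All lists of length `k` over `A`. -/
def allL {α : Type} (k : ℕ) (A : List α) : List (List α) :=
  (fun L => A.flatMap fun a => L.map fun l => a :: l)^[k] [[]]

theorem mem_allL {α : Type} {k : ℕ} {A l : List α} :
    l ∈ allL k A ↔ l.length = k ∧ ∀ a ∈ l, a ∈ A := by
  induction k generalizing l with
  | zero =>
    simp only [allL, iterate_zero, id, List.mem_singleton, List.length_eq_zero_iff]
    exact ⟨fun h => by simp [h], fun h => h.1⟩
  | succ k ih =>
    rw [allL, iterate_succ_apply']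
    simp only [List.mem_flatMap, List.mem_map]
    constructor
    · rintro ⟨a, ha, l, hl, rfl⟩
      have := ih.1 hl
      exact ⟨by simp [this.1], by simpa using ⟨ha, this.2⟩⟩
    · rintro ⟨h1, h2⟩
      obtain ⟨a, l, rfl⟩ := List.exists_cons_of_length_eq_add_one h1
      exact ⟨a, h2 a (by simp), l, ih.2 ⟨by simpa using h1, fun b hb => h2 b (by simp [hb])⟩, rfl⟩

/-- All tables of size at most `b`. -/
def tabs (b : ℕ) : List (List (List ℕ)) :=
  (List.range (b + 1)).flatMap fun n => allL n (allL n (List.range n))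

/-- Tables of nonempty semigroups. -/
def Valid (t : List (List ℕ)) : Prop :=
  0 < t.length ∧ (∀ i < t.length, (t.getD i []).length = t.length ∧
    ∀ j < t.length, op t i j < t.length) ∧
  ∀ i < t.length, ∀ j < t.length, ∀ k < t.length, op t (op t i j) k = op t i (op t j k)

/-- Lists describing homomorphisms. -/
def IsHom (t t' : List (List ℕ)) (g : List ℕ) : Prop :=
  (∀ i < t.length, g.getD i 0 < t'.length) ∧
  ∀ i < t.length, ∀ j < t.length, g.getD (op t i j) 0 = op t' (g.getD i 0) (g.getD j 0)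

section
variable {α γ : Type} [Primcodable α] [Primcodable γ]

@[fun_prop] theorem p_op {t : α → List (List ℕ)} {i j : α → ℕ} (ht : Primrec t) (hi : Primrec i)
    (hj : Primrec j) : Primrec fun a => op (t a) (i a) (j a) := by
  unfold op; fun_prop

@[fun_prop] theorem p_allL {k : α → ℕ} {A : α → List γ} (hk : Primrec k) (hA : Primrec A) :
    Primrec fun a => allL (k a) (A a) := by
  unfold allL; fun_prop

@[fun_prop] theorem p_tabs {b : α → ℕ} (hb : Primrec b) : Primrec fun a => tabs (b a) := by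
  unfold tabs; fun_prop

@[fun_prop] theorem p_valid {t : α → List (List ℕ)} (ht : Primrec t) :
    Primrec fun a => cd (Valid (t a)) := by
  unfold Valid; fun_prop

@[fun_prop] theorem p_isHom {t t' : α → List (List ℕ)} {g : α → List ℕ} (ht : Primrec t)
    (ht' : Primrec t') (hg : Primrec g) : Primrec fun a => cd (IsHom (t a) (t' a) (g a)) := by
  unfold IsHom; fun_prop

@[fun_prop] theorem p_lprod {l : α → List ℕ} (hl : Primrec l) : Primrec fun a => (l a).prod :=
  p_foldr (g := fun _ => 1) (h := fun _ x s => x * s) (by fun_prop) (.const 1) hl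

@[fun_prop] theorem p_fact {m : α → ℕ} (hm : Primrec m) : Primrec fun a => (m a).factorial :=
  (p_prod (f := fun _ v => v + 1) (by fun_prop) hm).of_eq fun _ =>
    Finset.prod_range_add_one_eq_factorial _

theorem p_β : Primrec β := by
  unfold β bd rr jj kk; fun_prop

end

section
variable {M M' : Type} [Semigroup M] [Semigroup M'] {n n' : ℕ} (e : Fin n ≃ M) (e' : Fin n' ≃ M')

@[simp] theorem tab_length : (tab e).length = n := by simp [tab]

theorem op_tab (x y : M) : op (tab e) (e.symm x) (e.symm y) = e.symm (x * y) := by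
  simp [op, tab, List.getD_eq_getElem?_getD]

theorem fa (P : ℕ → Prop) : (∀ a < n, P a) ↔ ∀ x : M, P (e.symm x) :=
  ⟨fun h x => h _ (e.symm x).2, fun h a ha => by simpa using h (e ⟨a, ha⟩)⟩

theorem exi (P : ℕ → Prop) : (∃ a < n, P a) ↔ ∃ x : M, P (e.symm x) :=
  ⟨fun ⟨a, ha, h⟩ => ⟨e ⟨a, ha⟩, by simpa using h⟩, fun ⟨x, h⟩ => ⟨_, (e.symm x).2, h⟩⟩

theorem r_inj (x y : M) : (e.symm x : ℕ) = e.symm y ↔ x = y := by
  rw [Fin.val_inj, e.symm.injective.eq_iff]

theorem valid_tab [Nonempty M] : Valid (tab e) := by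
  refine ⟨by simpa using (e.symm (Classical.arbitrary M)).pos, ?_, ?_⟩
  · simp only [tab_length, fa e, op_tab]
    exact fun x => ⟨by simp [tab, List.getD_eq_getElem?_getD], fun y => (e.symm _).2⟩
  · simp only [tab_length, fa e, op_tab, mul_assoc, implies_true]

theorem tab_mem {b : ℕ} (h : n ≤ b) : tab e ∈ tabs b := by
  simp only [tabs, List.mem_flatMap, List.mem_range, mem_allL]
  refine ⟨n, by omega, tab_length e, fun l hl => ?_⟩
  simp only [tab, List.mem_ofFn] at hl
  obtain ⟨i, rfl⟩ := hl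
  simp

theorem hom_of {g : List ℕ} (h : IsHom (tab e) (tab e') g) :
    ∃ f : M →ₙ* M', ∀ x, (e'.symm (f x) : ℕ) = g.getD (e.symm x) 0 := by
  simp only [IsHom, tab_length, fa e, op_tab] at h
  have h1 : ∀ x, (e'.symm (e' ⟨_, h.1 x⟩) : ℕ) = g.getD (e.symm x) 0 := fun x => by simp
  refine ⟨⟨fun x => e' ⟨_, h.1 x⟩, fun x y => (r_inj e' _ _).1 ?_⟩, h1⟩
  rw [← op_tab e', h1, h1, h1, h.2]

theorem hom_list (f : M →ₙ* M') {c : ℕ} (hc : n' ≤ c) : ∃ g ∈ allL n (List.range c),
    IsHom (tab e) (tab e') g ∧ ∀ x, g.getD (e.symm x) 0 = e'.symm (f x) := by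
  have h1 : ∀ x, (List.ofFn fun i => (e'.symm (f (e i)) : ℕ)).getD (e.symm x) 0 =
      e'.symm (f x) := fun x => by simp [List.getD_eq_getElem?_getD]
  refine ⟨_, mem_allL.2 ⟨by simp, fun a ha => ?_⟩, ?_, h1⟩
  · simp only [List.mem_ofFn] at ha
    obtain ⟨i, rfl⟩ := ha
    exact List.mem_range.2 ((e'.symm _).2.trans_le hc)
  · simp only [IsHom, tab_length, fa e, op_tab, h1, map_mul, implies_true, and_true]
    exact fun x => (e'.symm _).2

end

theorem tabs_le {b : ℕ} {t : List (List ℕ)} (h : t ∈ tabs b) : t.length ≤ b := by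
  simp only [tabs, List.mem_flatMap, List.mem_range, mem_allL] at h
  obtain ⟨n, hn, h, -⟩ := h
  omega

theorem exists_sg {t : List (List ℕ)} (h : Valid t) : ∃ (T : Type) (_ : Semigroup T)
    (_ : Finite T) (_ : Nonempty T) (e : Fin t.length ≃ T), tab e = t := by
  refine ⟨Fin t.length,
    { mul := fun i j => ⟨op t i j, (h.2.1 i i.2).2 j j.2⟩
      mul_assoc := fun i j k => Fin.ext (h.2.2 i i.2 j j.2 k k.2) }, inferInstance, ⟨⟨0, h.1⟩⟩,
    Equiv.refl _, ?_⟩
  refine List.ext_getElem (by simp [tab]) fun i h1 h2 => ?_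
  have h3 := (h.2.1 i h2).1
  rw [List.getD_eq_getElem _ _ h2] at h3
  refine List.ext_getElem (by simp [tab, h3]) fun j h4 h5 => ?_
  simp only [tab, List.getElem_ofFn]
  show op t i j = _
  rw [op, List.getD_eq_getElem _ _ h2, List.getD_eq_getElem _ _ h5]

/-- Classes with a numerical parameter. -/
abbrev PC : Type 1 := ℕ → ∀ (V : Type) [Semigroup V], Prop

/-- Uniformly primitive recursive classes. -/
def Dec (C : PC) : Prop := ∃ q : ℕ × List (List ℕ) → Bool, Primrec q ∧
  ∀ (b : ℕ) (M : Type) [Semigroup M] [Nonempty M] (n : ℕ) (e : Fin n ≃ M),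
    q (b, tab e) = true ↔ C b M

/-- Bounded images. -/
def Hb (C : PC) : PC := fun b M _ => ∃ (T : Type) (_ : Semigroup T) (_ : Finite T), C b T ∧
  Nat.card T ≤ b ∧ ∃ f : T →ₙ* M, Surjective f

/-- Bounded extensions. -/
def Sb (C : PC) : PC := fun b M _ => ∃ (T : Type) (_ : Semigroup T) (_ : Finite T), C b T ∧
  Nat.card T ≤ b ∧ ∃ f : M →ₙ* T, Injective f

/-- Bounded products. -/
def Pb (C : PC) : PC := fun b M _ => ∃ F : Fam b (C b), Nonempty (M ≃* ∀ j, F.V j)

theorem dec_zs : Dec fun _ => ZS := by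
  refine ⟨fun a => cd (∃ z < a.2.length, (∀ x < a.2.length, op a.2 z x = z ∧ op a.2 x z = z) ∧
    (∃ x < a.2.length, x ≠ z) ∧ ∀ x < a.2.length, x ≠ z → ∀ y < a.2.length,
      ∃ c < a.2.length, ∃ d < a.2.length, y = op a.2 (op a.2 c x) d), by fun_prop, ?_⟩
  intro b M _ _ n e
  simp only [cd_true, tab_length, fa e, exi e, op_tab, r_inj, ne_eq, ZS]

theorem Dec.hb {C : PC} (h : Dec C) : Dec (Hb C) := by
  obtain ⟨q, hq, h⟩ := h
  refine ⟨fun a => cd (∃ t ∈ tabs a.1, Valid t ∧ q (a.1, t) = true ∧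
    ∃ g ∈ allL t.length (List.range a.2.length), IsHom t a.2 g ∧
      ∀ y < a.2.length, ∃ x < t.length, g.getD x 0 = y), by fun_prop, ?_⟩
  intro b M _ _ n e
  rw [cd_true]
  constructor
  · rintro ⟨t, ht, hv, h1, g, -, h2, h3⟩
    obtain ⟨T, _, _, _, e', he⟩ := exists_sg hv
    rw [← he] at h1 h2
    obtain ⟨f, hf⟩ := hom_of e' e h2
    refine ⟨T, _, inferInstance, (h b T _ e').1 h1, ?_, f, fun y => ?_⟩
    · rw [← Nat.card_congr e', Nat.card_fin]; exact tabs_le ht
    · simp only [tab_length, fa e, exi e', ← hf, r_inj] at h3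
      exact h3 y
  · rintro ⟨T, _, _, h1, h2, f, hf⟩
    have : Nonempty T := hf.nonempty
    let e' := (Finite.equivFin T).symm
    obtain ⟨g, hg, h3, h4⟩ := hom_list e' e f le_rfl
    refine ⟨tab e', tab_mem e' h2, valid_tab e', (h b T _ e').2 h1, g, by simpa using hg, h3, ?_⟩
    simp only [tab_length, fa e, exi e', h4, r_inj]
    exact hf

theorem Dec.sb {C : PC} (h : Dec C) : Dec (Sb C) := by
  obtain ⟨q, hq, h⟩ := h
  refine ⟨fun a => cd (∃ t ∈ tabs a.1, Valid t ∧ q (a.1, t) = true ∧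
    ∃ g ∈ allL a.2.length (List.range t.length), IsHom a.2 t g ∧
      ∀ x < a.2.length, ∀ y < a.2.length, g.getD x 0 = g.getD y 0 → x = y), by fun_prop, ?_⟩
  intro b M _ _ n e
  rw [cd_true]
  constructor
  · rintro ⟨t, ht, hv, h1, g, -, h2, h3⟩
    obtain ⟨T, _, _, _, e', he⟩ := exists_sg hv
    rw [← he] at h1 h2
    obtain ⟨f, hf⟩ := hom_of e e' h2
    refine ⟨T, _, inferInstance, (h b T _ e').1 h1, ?_, f, fun x y => ?_⟩
    · rw [← Nat.card_congr e', Nat.card_fin]; exact tabs_le ht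
    · simp only [tab_length, fa e, ← hf, r_inj] at h3
      exact h3 x y
  · rintro ⟨T, _, _, h1, h2, f, hf⟩
    have : Nonempty T := ⟨f (Classical.arbitrary M)⟩
    let e' := (Finite.equivFin T).symm
    obtain ⟨g, hg, h3, h4⟩ := hom_list e e' f le_rfl
    refine ⟨tab e', tab_mem e' h2, valid_tab e', (h b T _ e').2 h1, g, by simpa using hg, h3, ?_⟩
    simp only [tab_length, fa e, h4, r_inj]
    exact fun x y hxy => hf hxy

theorem Dec.pb {C : PC} (h : Dec C) : Dec (Pb C) := by
  obtain ⟨q, hq, h⟩ := h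
  refine ⟨fun a => cd (a.2.length ≤ a.1 ∧ ∃ k ≤ a.1, ∃ L ∈ allL k ((tabs a.1).flatMap fun t =>
    (allL a.2.length (List.range a.1)).map fun g => (t, g)), 0 < k ∧
    (∀ p ∈ L, Valid p.1 ∧ q (a.1, p.1) = true ∧ IsHom a.2 p.1 p.2) ∧
    (∀ x < a.2.length, ∀ y < a.2.length, (∀ p ∈ L, p.2.getD x 0 = p.2.getD y 0) → x = y) ∧
    (L.map fun p => p.1.length).prod = a.2.length), by fun_prop, ?_⟩
  intro b M _ _ n e
  rw [cd_true]
  constructor
  · rintro ⟨h0, k, hk, L, hL, hk0, h1, h2, h3⟩
    obtain ⟨rfl, hL'⟩ := mem_allL.1 hL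
    choose T sg fin ne e' he using fun j : Fin L.length => exists_sg (h1 L[j] (by simp)).1
    have h4 : ∀ j : Fin L.length, ∃ f : M →ₙ* T j,
        ∀ x, ((e' j).symm (f x) : ℕ) = L[j].2.getD (e.symm x) 0 := fun j =>
      hom_of e (e' j) (by rw [he]; exact (h1 L[j] (by simp)).2.2)
    choose f hf using h4
    have h5 : ∀ j, Nat.card (T j) = L[j].1.length := fun j => by
      rw [← Nat.card_congr (e' j), Nat.card_fin]
    have h6 : Nat.card (∀ j, T j) = n := by
      rw [Nat.card_pi]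
      simp only [h5]
      rw [tab_length] at h3
      exact (Fin.prod_univ_fun_getElem L fun p => p.1.length).trans h3
    have h7 : Injective (MulHom.pi f) := by
      intro x y hxy
      simp only [tab_length, fa e, r_inj] at h2
      refine h2 x y fun p hp => ?_
      obtain ⟨j, rfl⟩ := List.mem_iff_get.1 hp
      exact (hf j x).symm.trans ((congrArg _ (congrArg _ (congrFun hxy j))).trans (hf j y))
    refine ⟨⟨Fin L.length, inferInstance, ⟨⟨0, hk0⟩⟩, T, sg, fin, ne, by simpa using hk,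
      fun j => ?_, by rw [h6]; simpa using h0, fun j => (h b (T j) _ (e' j)).1 ?_⟩,
      ⟨MulEquiv.ofBijective (MulHom.pi f) ?_⟩⟩
    · have h8 := hL' L[j] (by simp)
      simp only [List.mem_flatMap, List.mem_map] at h8
      obtain ⟨t, ht, g, -, h8⟩ := h8
      rw [h5, ← h8]
      exact tabs_le ht
    · rw [he]; exact (h1 L[j] (by simp)).2.1
    · exact h7.bijective_of_nat_card_le (by rw [h6, ← Nat.card_congr e, Nat.card_fin])
  · rintro ⟨F, ⟨ψ⟩⟩
    let σ := (Finite.equivFin F.J).symm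
    let e' := fun j => (Finite.equivFin (F.V j)).symm
    have h1 := fun j => hom_list e (e' j) ((Pi.evalMulHom F.V j).comp ψ.toMulHom) (F.cV j)
    choose g hg hg' hg'' using h1
    have h2 : Nat.card (∀ j, F.V j) = n := by
      rw [← Nat.card_congr ψ.toEquiv, ← Nat.card_congr e, Nat.card_fin]
    refine ⟨by simpa [← h2] using F.cP, _, F.cJ, List.ofFn fun i => (tab (e' (σ i)), g (σ i)),
      mem_allL.2 ⟨by simp, ?_⟩, Nat.card_pos, ?_, ?_, ?_⟩
    · simp only [List.forall_mem_ofFn_iff, List.mem_flatMap, List.mem_map, tab_length]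
      exact fun i => ⟨_, tab_mem _ (F.cV _), _, hg _, rfl⟩
    · simp only [List.forall_mem_ofFn_iff]
      exact fun i => ⟨valid_tab _, (h b _ _ _).2 (F.pr _), hg' _⟩
    · simp only [List.forall_mem_ofFn_iff, tab_length, fa e, hg'', r_inj]
      intro x y hxy
      apply ψ.injective
      funext j
      obtain ⟨i, rfl⟩ := σ.surjective j
      exact hxy i
    · have := Fintype.ofFinite F.J
      rw [List.map_ofFn, List.prod_ofFn, tab_length, ← h2, Nat.card_pi]
      exact Fintype.prod_equiv σ _ _ fun i => tab_length _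

theorem Dec.fin {C : PC} (h : Dec C) : ∃ f : List (List ℕ) → Bool, Computable f ∧
    ∀ (M : Type) [Semigroup M] [Nonempty M] (n : ℕ) (e : Fin n ≃ M),
      f (tab e) = true ↔ C (β (Nat.card M)) M := by
  obtain ⟨q, hq, h⟩ := h
  have := p_β
  refine ⟨fun t => q (β t.length, t), Primrec.to_comp (by fun_prop), fun M _ _ n e => ?_⟩
  rw [h, tab_length, ← Nat.card_congr e, Nat.card_fin]

end Pool.Agent.H.MP_99598b_lc
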