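import Pool.Agent.H.MP_88bd66_lc.A

/-! Finite 0-simple semigroups, graphs of nonzero products, path semigroups over a group. -/

namespace Pool.Agent.H.MP_99598b_lc

open Function Pool.Agent.H.MP_88bd66_lc

/-- Value of a nonempty word. -/
noncomputable def vl {Y S : Type} [Mul S] [Nonempty S] (τ : Y → S) : List Y → S
  | [] => Classical.arbitrary S
  | x :: r => lp (τ x) (r.map τ)

section
variable {Y S : Type} [Semigroup S] [Nonempty S] (τ : Y → S)

@[simp] theorem vl_single (x : Y) : vl τ [x] = τ x := rfl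

theorem vl_append {u v : List Y} (hu : u ≠ []) (hv : v ≠ []) :
    vl τ (u ++ v) = vl τ u * vl τ v := by
  obtain ⟨x, u, rfl⟩ := List.exists_cons_of_ne_nil hu
  obtain ⟨y, v, rfl⟩ := List.exists_cons_of_ne_nil hv
  show lp (τ x) ((u ++ y :: v).map τ) = lp (τ x) (u.map τ) * lp (τ y) (v.map τ)
  rw [List.map_append, lp_append, ← lp_mul]
  rfl

theorem vl_cons (x : Y) {v : List Y} (hv : v ≠ []) : vl τ (x :: v) = τ x * vl τ v :=
  vl_append τ (u := [x]) (by simp) hv

theorem vl_ctx {u v : List Y} (hu : u ≠ []) (hv : v ≠ []) (h : vl τ u = vl τ v) (p q : List Y) :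
    vl τ (p ++ u ++ q) = vl τ (p ++ v ++ q) := by
  have h1 : vl τ (p ++ u) = vl τ (p ++ v) := by
    by_cases hp : p = []
    · simpa [hp] using h
    · rw [vl_append τ hp hu, vl_append τ hp hv, h]
  by_cases hq : q = []
  · simpa [hq] using h1
  · rw [vl_append τ (by simp [hu]) hq, vl_append τ (by simp [hv]) hq, h1]

theorem vl_rep {c : List Y} (hc : c ≠ []) (n : ℕ) :
    vl τ (List.replicate (n + 1) c).flatten = pw (vl τ c) n := by
  induction n with
  | zero => simp [pw]
  | succ n ih =>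
    rw [List.replicate_succ', List.flatten_append, vl_append τ (by simp [hc]) (by simp [hc]), ih]
    simp [pw]

theorem map_vl {N : Type} [Semigroup N] [Nonempty N] (f : S →ₙ* N) {u : List Y} (hu : u ≠ []) :
    f (vl τ u) = vl (fun y => f (τ y)) u := by
  obtain ⟨x, u, rfl⟩ := List.exists_cons_of_ne_nil hu
  exact (map_lp f _ _).trans (by rw [List.map_map]; rfl)

end

theorem vl_apply {Y ι : Type} {T : ι → Type} [∀ i, Semigroup (T i)] [∀ i, Nonempty (T i)]
    (τ : Y → ∀ i, T i) {u : List Y} (hu : u ≠ []) (i : ι) :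
    vl τ u i = vl (fun y => τ y i) u :=
  map_vl τ (Pi.evalMulHom T i) hu

/-- A convenient form of 0-simplicity. -/
def ZS (S : Type) [Semigroup S] : Prop :=
  ∃ z : S, (∀ a, z * a = z ∧ a * z = z) ∧ (∃ a, a ≠ z) ∧ ∀ a, a ≠ z → ∀ b, ∃ c d, b = c * a * d

/-- The properties of subsemigroups of finite 0-simple semigroups that are used. -/
structure Nice {S : Type} [Semigroup S] (zer : S → Prop) (n : ℕ) : Prop where
  uniq : ∀ a b, zer a → zer b → a = b
  left : ∀ a b, zer a → zer (a * b)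
  right : ∀ a b, zer b → zer (a * b)
  cat : ∀ a b c, ¬zer (a * b) → ¬zer (b * c) → ¬zer (a * b * c)
  reg : ∀ x a, (a = x ∨ ∃ y, a = y * x) → ¬zer (x * a) → x * pw a n = x

theorem pw_mul_of {S : Type} [Semigroup S] {p u : S} (h : u * p = p) (n : ℕ) :
    pw u n * p = p := by
  induction n with
  | zero => exact h
  | succ n ih => rw [pw, mul_assoc, h, ih]

theorem sandwich {S : Type} [Semigroup S] {b u v : S} (h : b = u * b * v) (n : ℕ) :
    b = pw u n * b * pw v n := by
  induction n with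
  | zero => exact h
  | succ n ih =>
    have h1 : pw v (n + 1) = v * pw v n := by
      have := pw_add v 0 n
      rw [zero_add] at this
      exact this
    rw [h1, pw]
    calc b = pw u n * b * pw v n := ih
      _ = pw u n * (u * b * v) * pw v n := by rw [← h]
      _ = _ := by simp only [mul_assoc]

theorem pw_left {S : Type} [Semigroup S] (a : S) (n : ℕ) : pw a n = a ∨ ∃ y, pw a n = a * y := by
  cases n with
  | zero => exact Or.inl rfl
  | succ n =>
    have := pw_add a 0 n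
    rw [zero_add] at this
    exact Or.inr ⟨_, this⟩

theorem nice_of_zs {T : Type} [Semigroup T] [Finite T] {z : T} (hz : ∀ a, z * a = z ∧ a * z = z)
    (h : ∀ a, a ≠ z → ∀ b, ∃ c d, b = c * a * d) {B : ℕ} (hB : Nat.card T ≤ B) :
    Nice (fun a => a = z) (ex B) := by
  have hR : ∀ b c, b * c ≠ z → ∃ d, b = b * c * d := by
    intro b c hbc
    obtain ⟨u, v, huv⟩ := h _ hbc b
    have h1 := sandwich (b := b) (u := u) (v := c * v) (by simpa only [mul_assoc] using huv) (ex B)
    have h2 := om_idem hB (c * v)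
    have h3 : b = b * pw (c * v) (ex B) := by
      conv_rhs => rw [h1, mul_assoc, h2, ← h1]
    rcases pw_left (c * v) (ex B) with h4 | ⟨y, h4⟩
    · exact ⟨v, by rw [h4, ← mul_assoc] at h3; exact h3⟩
    · exact ⟨v * y, by rw [h4] at h3; simpa only [mul_assoc] using h3⟩
  have hL : ∀ b c, c * b ≠ z → ∃ d, b = d * (c * b) := by
    intro b c hbc
    obtain ⟨u, v, huv⟩ := h _ hbc b
    have h1 := sandwich (b := b) (u := u * c) (v := v) (by simpa only [mul_assoc] using huv) (ex B)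
    have h2 := om_idem hB (u * c)
    have h3 : b = pw (u * c) (ex B) * b := by
      conv_rhs => rw [h1, ← mul_assoc, ← mul_assoc, h2, ← h1]
    cases hn : ex B with
    | zero => exact ⟨u, by rw [hn] at h3; simpa only [pw, mul_assoc] using h3⟩
    | succ n => exact ⟨pw (u * c) n * u, by rw [hn] at h3; simpa only [pw, mul_assoc] using h3⟩
  have hcat : ∀ a b c, a * b ≠ z → b * c ≠ z → a * b * c ≠ z := by
    intro a b c hab hbc habc
    obtain ⟨d, hd⟩ := hR b c hbc
    apply hab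
    rw [hd, ← mul_assoc, ← mul_assoc, habc, (hz d).1]
  refine ⟨fun a b ha hb => ha.trans hb.symm, fun a b ha => by rw [ha, (hz b).1],
    fun a b hb => by rw [hb, (hz a).2], hcat, fun x a ha hxa => ?_⟩
  have h1 : ∀ n, pw a n ≠ z ∧ (pw a n = x ∨ ∃ y, pw a n = y * x) := by
    intro n
    induction n with
    | zero => exact ⟨fun h0 => hxa (by rw [show a = z from h0, (hz x).2]), ha⟩
    | succ n ih =>
      constructor
      · rcases ih.2 with h2 | ⟨y, h2⟩
        · rw [pw, h2]; exact hxa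
        · rw [pw, h2]; exact hcat y x a (h2 ▸ ih.1) hxa
      · rcases ha with h2 | ⟨y, h2⟩
        · exact Or.inr ⟨pw a n, by rw [pw, ← h2]⟩
        · exact Or.inr ⟨pw a n * y, by rw [mul_assoc, ← h2, pw]⟩
  have h2 := om_idem hB a
  obtain ⟨y, hy⟩ : ∃ y, pw a (ex B) = y * x := by
    rcases (h1 (ex B)).2 with h3 | h3
    · exact ⟨x, by rw [← h2, h3]⟩
    · exact h3
  obtain ⟨d, hd⟩ := hL x y (hy ▸ (h1 _).1)
  rw [← hy] at hd
  conv_lhs => rw [hd, mul_assoc, h2, ← hd]

theorem Nice.comap {S T : Type} [Semigroup S] [Semigroup T] {zer : T → Prop} {n : ℕ}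
    (h : Nice zer n) (j : S →ₙ* T) (hj : Injective j) : Nice (fun a => zer (j a)) n := by
  refine ⟨fun a b ha hb => hj (h.uniq _ _ ha hb), fun a b ha => ?_, fun a b hb => ?_,
    fun a b c hab hbc => ?_, fun x a ha hxa => hj ?_⟩
  · rw [map_mul]; exact h.left _ _ ha
  · rw [map_mul]; exact h.right _ _ hb
  · simp only [map_mul] at *; exact h.cat _ _ _ hab hbc
  · rw [map_mul, map_pw]
    refine h.reg _ _ ?_ (by rwa [map_mul] at hxa)
    rcases ha with rfl | ⟨y, rfl⟩
    · exact Or.inl rfl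
    · exact Or.inr ⟨j y, map_mul _ _ _⟩

/-- A set of living letters and a set of edges. -/
abbrev Gr (Y : Type) : Type := (Y → Prop) × (Y → Y → Prop)

/-- Nonempty words of living letters whose consecutive letters are edges. -/
def Path {Y : Type} (Γ : Gr Y) (w : List Y) : Prop :=
  w ≠ [] ∧ (∀ x ∈ w, Γ.1 x) ∧ w.IsChain Γ.2

theorem Path.mono {Y : Type} {Γ Γ' : Gr Y} (h : Γ ≤ Γ') {w : List Y} (hw : Path Γ w) :
    Path Γ' w :=
  ⟨hw.1, fun x hx => h.1 x (hw.2.1 x hx), hw.2.2.imp fun _ _ hxy => h.2 _ _ hxy⟩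

theorem path_single {Y : Type} {Γ : Gr Y} {x : Y} : Path Γ [x] ↔ Γ.1 x := by simp [Path]

theorem path_cons {Y : Type} {Γ : Gr Y} {x y : Y} {r : List Y} :
    Path Γ (x :: y :: r) ↔ Γ.1 x ∧ Γ.2 x y ∧ Path Γ (y :: r) := by
  simp only [Path, List.isChain_cons_cons, List.mem_cons, forall_eq_or_imp, ne_eq,
    reduceCtorEq, not_false_eq_true, true_and]
  tauto

/-- The graph of nonzero products. -/
def nat {Y S : Type} [Mul S] (zer : S → Prop) (τ : Y → S) : Gr Y :=
  (fun y => ¬zer (τ y), fun x y => ¬zer (τ x * τ y))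

section
variable {Y S : Type} [Semigroup S] [Nonempty S] {zer : S → Prop} {n : ℕ} {τ : Y → S}

theorem Nice.path_iff (h : Nice zer n) {w : List Y} (hw : w ≠ []) :
    Path (nat zer τ) w ↔ ¬zer (vl τ w) := by
  induction w with
  | nil => exact absurd rfl hw
  | cons x r ih =>
    cases r with
    | nil => exact path_single
    | cons y r =>
      rw [path_cons, ih (by simp), vl_cons τ x (by simp)]
      cases r with
      | nil =>
        exact ⟨fun h1 => h1.2.1, fun h1 => ⟨fun h2 => h1 (h.left _ _ h2), h1,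
          fun h2 => h1 (h.right _ _ h2)⟩⟩
      | cons y' r =>
        rw [vl_cons τ y (by simp), ← mul_assoc]
        exact ⟨fun h1 => h.cat _ _ _ h1.2.1 h1.2.2, fun h1 =>
          ⟨fun h2 => h1 (h.left _ _ (h.left _ _ h2)), fun h2 => h1 (h.left _ _ h2),
            fun h2 => h1 (by rw [mul_assoc]; exact h.right _ _ h2)⟩⟩

theorem Nice.cyc (h : Nice zer n) {x : Y} {c : List Y} (hc : Path (nat zer τ) (x :: c))
    (hl : c.getLast? = some x) : vl τ (x :: (List.replicate (n + 1) c).flatten) = τ x := by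
  obtain ⟨v, rfl⟩ := List.getLast?_eq_some_iff.1 hl
  rw [vl_cons τ x (by simp), vl_rep τ (by simp)]
  refine h.reg _ _ ?_ ?_
  · by_cases hv : v = []
    · exact Or.inl (by simp [hv])
    · exact Or.inr ⟨_, vl_append τ hv (by simp)⟩
  · rw [← vl_cons τ x (by simp)]
    exact (h.path_iff (by simp)).1 hc

end

/-- Rees matrix semigroup with zero attached to a graph with labelled edges. -/
def RS {Y G : Type} (_Γ : Gr Y) (_γ : Y → Y → G) : Type := Option (Y × G × Y)

section
variable {Y G : Type} [Group G] (Γ : Gr Y) (γ : Y → Y → G)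

open Classical in
/-- The multiplication. -/
noncomputable def RS.mul : Option (Y × G × Y) → Option (Y × G × Y) → Option (Y × G × Y)
  | some (x, g, y), some (x', g', y') =>
      if Γ.2 y x' then some (x, g * γ y x' * g', y') else none
  | _, _ => none

noncomputable instance : Semigroup (RS Γ γ) where
  mul := RS.mul Γ γ
  mul_assoc := by
    rintro (_ | ⟨x, g, y⟩) (_ | ⟨x', g', y'⟩) (_ | ⟨x'', g'', y''⟩) <;> try rfl
    all_goals
      show RS.mul Γ γ (RS.mul Γ γ _ _) _ = RS.mul Γ γ _ (RS.mul Γ γ _ _)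
      simp only [RS.mul]
      split_ifs <;> simp_all [mul_assoc]

instance : Nonempty (RS Γ γ) := ⟨none⟩

instance [Finite Y] [Finite G] : Finite (RS Γ γ) :=
  inferInstanceAs (Finite (Option (Y × G × Y)))

open Classical in
/-- The letters. -/
noncomputable def lt (x : Y) : RS Γ γ := if Γ.1 x then some (x, 1, x) else none

/-- The class of a word. -/
noncomputable def cl (w : List Y) : RS Γ γ := vl (lt Γ γ) w

/-- The label of a path. -/
def lab (x : Y) : List Y → G
  | [] => 1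
  | y :: r => γ x y * lab y r

/-- First letter, label, last letter. -/
def sgn : List Y → Option (Y × G × Y)
  | [] => none
  | x :: r => some (x, lab γ x r, r.getLastD x)

variable {Γ γ}

theorem rs_mul {x y x' y' : Y} {g g' : G} {a b : RS Γ γ} (ha : a = some (x, g, y))
    (hb : b = some (x', g', y')) (h : Γ.2 y x') : a * b = some (x, g * γ y x' * g', y') := by
  subst ha hb
  exact if_pos h

theorem rs_mul' {x y x' y' : Y} {g g' : G} {a b : RS Γ γ} (ha : a = some (x, g, y))
    (hb : b = some (x', g', y')) (h : ¬Γ.2 y x') : a * b = none := by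
  subst ha hb
  exact if_neg h

theorem rs_none (a b : RS Γ γ) (h : a = none ∨ b = none) : a * b = none := by
  rcases h with rfl | rfl
  · rfl
  · rcases a with _ | ⟨x, g, y⟩ <;> rfl

theorem cl_spec {w : List Y} (hw : w ≠ []) :
    (Path Γ w → cl Γ γ w = sgn γ w) ∧ (¬Path Γ w → cl Γ γ w = none) := by
  induction w with
  | nil => exact absurd rfl hw
  | cons x r ih =>
    cases r with
    | nil =>
      rw [path_single]
      exact ⟨fun h => if_pos h, fun h => if_neg h⟩
    | cons y r =>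
      have h1 : cl Γ γ (x :: y :: r) = lt Γ γ x * cl Γ γ (y :: r) := vl_cons _ _ (by simp)
      rw [path_cons, h1]
      constructor
      · rintro ⟨h2, h3, h4⟩
        refine (rs_mul (a := lt Γ γ x) (if_pos h2) ((ih (by simp)).1 h4) h3).trans ?_
        rw [one_mul, sgn, List.getLastD_cons]
        rfl
      · intro h2
        by_cases h3 : Γ.1 x
        · by_cases h4 : Path Γ (y :: r)
          · exact rs_mul' (if_pos h3) ((ih (by simp)).1 h4) fun h5 => h2 ⟨h3, h5, h4⟩
          · exact rs_none _ _ (Or.inr ((ih (by simp)).2 h4))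
        · exact rs_none _ _ (Or.inl (if_neg h3))

theorem cl_path {w : List Y} (h : Path Γ w) : cl Γ γ w = sgn γ w := (cl_spec h.1).1 h

theorem sgn_ne {w : List Y} (hw : w ≠ []) : sgn γ w ≠ none := by
  obtain ⟨x, r, rfl⟩ := List.exists_cons_of_ne_nil hw
  simp [sgn]

theorem path_of_cl {w w' : List Y} (hw : w ≠ []) (h : Path Γ w') (e : cl Γ γ w = cl Γ γ w') :
    Path Γ w ∧ sgn γ w = sgn γ w' := by
  have h1 : Path Γ w := by
    by_contra h1
    rw [(cl_spec hw).2 h1, cl_path h] at e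
    exact sgn_ne h.1 e.symm
  exact ⟨h1, by rw [← cl_path h1, e, cl_path h]⟩

theorem path_of_ne {w : List Y} (hw : w ≠ []) (h : cl Γ γ w ≠ none) : Path Γ w := by
  by_contra h1
  exact h ((cl_spec hw).2 h1)

theorem cl_append {u v : List Y} (hu : u ≠ []) (hv : v ≠ []) :
    cl Γ γ (u ++ v) = cl Γ γ u * cl Γ γ v := vl_append _ hu hv

variable (Γ γ)

/-- The subsemigroup generated by the letters. -/
def UU : Subsemigroup (RS Γ γ) where
  carrier := {a | ∃ w, w ≠ [] ∧ a = cl Γ γ w}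
  mul_mem' := by
    rintro a b ⟨u, hu, rfl⟩ ⟨v, hv, rfl⟩
    exact ⟨u ++ v, by simp [hu], (cl_append hu hv).symm⟩

instance [Nonempty Y] : Nonempty (UU Γ γ) :=
  ⟨⟨_, [Classical.arbitrary Y], by simp, rfl⟩⟩

/-- Strongly connected on the living letters, with a living and a dead letter. -/
def Good : Prop :=
  (∀ x y, Γ.1 x → Γ.1 y → ∃ l, Path Γ (x :: l ++ [y])) ∧ (∃ x, Γ.1 x) ∧ ∃ x, ¬Γ.1 x

variable {Γ}

theorem path_glue {u v : List Y} {y : Y} (hu : Path Γ (u ++ [y])) (hv : Path Γ (y :: v)) :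
    Path Γ (u ++ y :: v) := by
  refine ⟨by simp, fun x hx => ?_, ?_⟩
  · rcases List.mem_append.1 hx with h | h
    · exact hu.2.1 x (List.mem_append_left _ h)
    · exact hv.2.1 x h
  · exact List.isChain_split.2 ⟨hu.2.2, hv.2.2⟩

theorem zs_UU [Finite G] (h : Good Γ) : ZS (UU Γ γ) := by
  obtain ⟨h1, ⟨x0, hx0⟩, x1, hx1⟩ := h
  have hz : cl Γ γ [x1] = none := (cl_spec (by simp)).2 (by rwa [path_single])
  let z : UU Γ γ := ⟨_, [x1], by simp, rfl⟩
  have hz' : ∀ a : UU Γ γ, a = z ↔ a.1 = none := fun a => by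
    rw [Subtype.ext_iff]; exact iff_of_eq (congrArg _ hz)
  have hzz : ∀ a, z * a = z ∧ a * z = z := fun a =>
    ⟨(hz' _).2 (rs_none _ _ (Or.inl hz)), (hz' _).2 (rs_none _ _ (Or.inr hz))⟩
  refine ⟨z, hzz, ⟨⟨_, [x0], by simp, rfl⟩, fun h2 => ?_⟩, ?_⟩
  · have h3 := (hz' _).1 h2
    exact sgn_ne (γ := γ) (w := [x0]) (by simp) ((cl_path (path_single.2 hx0)).symm.trans h3)
  rintro ⟨_, wa, hwa, rfl⟩ ha b
  by_cases hb : b = z
  · exact ⟨z, z, by rw [hb, (hzz _).2]⟩
  obtain ⟨_, wb, hwb, rfl⟩ := b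
  have pa : Path Γ wa := path_of_ne hwa fun h2 => ha ((hz' _).2 h2)
  have pb : Path Γ wb := path_of_ne hwb fun h2 => hb ((hz' _).2 h2)
  obtain ⟨xa, ra, rfl⟩ := List.exists_cons_of_ne_nil hwa
  obtain ⟨ua, ya, hua⟩ := (List.eq_nil_or_concat (xa :: ra)).resolve_left (by simp)
  obtain ⟨ub, yb, hub⟩ := (List.eq_nil_or_concat wb).resolve_left hwb
  rw [List.concat_eq_append] at hua hub
  have hyb : Γ.1 yb := pb.2.1 _ (by simp [hub])
  obtain ⟨l1, p1⟩ := h1 yb xa hyb (pa.2.1 _ (by simp))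
  obtain ⟨l2, p2⟩ := h1 ya yb (pa.2.1 _ (by rw [hua]; simp)) hyb
  have p3 : Path Γ (yb :: (l1 ++ (xa :: ra) ++ (l2 ++ [yb]))) := by
    have h2 := path_glue p1 pa
    rw [hua, ← List.append_assoc] at h2
    have h3 := path_glue h2 p2
    rw [hua]
    simpa using h3
  obtain ⟨f, r, hfr⟩ := List.exists_cons_of_ne_nil
    (l := l1 ++ (xa :: ra) ++ (l2 ++ [yb])) (by simp)
  have h4 : r.getLastD f = yb := by
    have := congrArg (fun l => List.getLastD l f) hfr
    simp only [List.getLastD_cons] at this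
    rw [← this, ← List.append_assoc, List.getLastD_concat]
  rw [hfr, path_cons] at p3
  have h5 : cl Γ γ (f :: r) = some (f, lab γ f r, yb) := by rw [cl_path p3.2.2, sgn, h4]
  obtain ⟨xb, g, h6⟩ : ∃ xb g, cl Γ γ wb = some (xb, g, yb) := by
    obtain ⟨xb, rb, hrb⟩ := List.exists_cons_of_ne_nil hwb
    refine ⟨xb, lab γ xb rb, ?_⟩
    have := congrArg (fun l => List.getLastD l xb) (hrb.symm.trans hub)
    simp only [List.getLastD_cons, List.getLastD_concat] at this
    rw [cl_path pb, hrb, sgn, this]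
  have h7 : ∀ n, cl Γ γ wb * pw (cl Γ γ (f :: r)) n =
      some (xb, g * (γ yb f * lab γ f r) ^ (n + 1), yb) := by
    intro n
    induction n with
    | zero => rw [pw, rs_mul h6 h5 p3.2.1]; simp [mul_assoc]
    | succ n ih =>
      rw [pw, ← mul_assoc, rs_mul ih h5 p3.2.1, pow_succ _ (n + 1)]
      simp [mul_assoc]
  obtain ⟨n, hn⟩ : ∃ n, Nat.card G * 2 = n + 1 + 1 :=
    ⟨Nat.card G * 2 - 2, by have := Nat.card_pos (α := G); omega⟩
  have h8 := h7 (n + 1)
  rw [← hn, pow_mul, pow_card_eq_one', one_pow, mul_one, ← h6] at h8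
  have h9 := pw_add (cl Γ γ (f :: r)) 0 n
  rw [zero_add] at h9
  refine ⟨⟨_, wb ++ l1, by simp [hwb], rfl⟩,
    ⟨_, l2 ++ [yb], by simp, rfl⟩ * pw ⟨_, f :: r, by simp, rfl⟩ n, Subtype.ext ?_⟩
  have h10 := map_pw (MulMemClass.subtype (UU Γ γ)) ⟨_, f :: r, by simp, rfl⟩ n
  show cl Γ γ wb = cl Γ γ (wb ++ l1) * cl Γ γ (xa :: ra) * (cl Γ γ (l2 ++ [yb]) *
    MulMemClass.subtype (UU Γ γ) (pw _ n))
  rw [h10, ← mul_assoc, ← cl_append (by simp [hwb]) (by simp), ← cl_append (by simp) (by simp)]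
  conv_lhs => rw [← h8, h9, ← mul_assoc]
  have h11 : wb ++ l1 ++ xa :: ra ++ (l2 ++ [yb]) = wb ++ f :: r := by
    rw [← hfr]; simp only [List.append_assoc]
  rw [h11, cl_append hwb (by simp)]
  rfl

/-- Every path semigroup embeds into a 0-simple one with two more letters. -/
theorem exists_zs [Finite G] (Γ : Gr Y) : ∃ (Γ' : Gr (Y ⊕ Bool)) (γ' : Y ⊕ Bool → Y ⊕ Bool → G)
    (f : UU Γ γ →ₙ* UU Γ' γ'), ZS (UU Γ' γ') ∧ Injective f := by
  let Γ' : Gr (Y ⊕ Bool) := (Sum.elim Γ.1 (fun b => b = true), fun a b =>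
    match a, b with
    | Sum.inl x, Sum.inl y => Γ.2 x y
    | _, _ => True)
  let γ' : Y ⊕ Bool → Y ⊕ Bool → G := fun a b =>
    match a, b with
    | Sum.inl x, Sum.inl y => γ x y
    | _, _ => 1
  let f : RS Γ γ →ₙ* RS Γ' γ' :=
    { toFun := Option.map fun a => (Sum.inl a.1, a.2.1, Sum.inl a.2.2)
      map_mul' := by
        rintro (_ | ⟨x, g, y⟩) (_ | ⟨x', g', y'⟩) <;> try rfl
        by_cases h : Γ.2 y x'
        · rw [rs_mul rfl rfl h]
          exact (rs_mul (Γ := Γ') (γ := γ') (y := Sum.inl y) (x' := Sum.inl x') rfl rfl h).symm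
        · rw [rs_mul' rfl rfl h]
          exact (rs_mul' (Γ := Γ') (γ := γ') (y := Sum.inl y) (x' := Sum.inl x') rfl rfl h).symm }
  have hf : Injective f := Option.map_injective fun a b h => by
    simp only [Prod.mk.injEq, Sum.inl.injEq] at h
    exact Prod.ext h.1 (Prod.ext h.2.1 h.2.2)
  have h1 : ∀ w, w ≠ [] → f (cl Γ γ w) = cl Γ' γ' (w.map Sum.inl) := by
    intro w hw
    rw [cl, map_vl _ f hw]
    obtain ⟨x, r, rfl⟩ := List.exists_cons_of_ne_nil hw
    have h2 : ∀ y, f (lt Γ γ y) = lt Γ' γ' (Sum.inl y) := fun y => by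
      by_cases h : Γ.1 y
      · rw [lt, lt, if_pos h, if_pos (show Γ'.1 (Sum.inl y) from h)]; rfl
      · rw [lt, lt, if_neg h, if_neg (show ¬Γ'.1 (Sum.inl y) from h)]; rfl
    simp only [h2, cl, vl, List.map_cons, List.map_map]
    rfl
  refine ⟨Γ', γ', ⟨fun a => ⟨f a.1, ?_⟩, fun a b => Subtype.ext (map_mul f _ _)⟩,
    zs_UU γ' ⟨fun x y hx hy => ⟨[Sum.inr true], ?_⟩, ⟨Sum.inr true, rfl⟩,
      Sum.inr false, by simp [Γ']⟩, fun a b h => Subtype.ext (hf (congrArg Subtype.val h))⟩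
  · obtain ⟨w, hw, h⟩ := a.2
    exact ⟨w.map Sum.inl, by simpa, by rw [h, h1 w hw]⟩
  · show Path Γ' [x, Sum.inr true, y]
    rw [path_cons, path_cons, path_single]
    refine ⟨hx, ?_, rfl, trivial, hy⟩
    cases x <;> trivial

theorem card_UU [Finite Y] [Finite G] (Γ : Gr Y) :
    Nat.card (UU Γ γ) ≤ Nat.card Y * (Nat.card G * Nat.card Y) + 1 := by
  refine (Nat.card_le_card_of_injective _ Subtype.val_injective).trans ?_
  show Nat.card (Option (Y × G × Y)) ≤ _
  rw [Finite.card_option, Nat.card_prod, Nat.card_prod]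

end

end Pool.Agent.H.MP_99598b_lc
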