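import Pool.Agent.H.MP_99598b_lc.A

/-! The key lemma: labels in a universal finite group determine bounded-state functions. -/

namespace Pool.Agent.H.MP_99598b_lc

open Function Pool.Agent.H.MP_88bd66_lc

/-- The universal group. -/
abbrev GG (Y : Type) (k : ℕ) : Type := (Y × Y → Equiv.Perm (Fin k)) → Equiv.Perm (Fin k)

/-- The universal labels. -/
def gen (Y : Type) (k : ℕ) (x y : Y) : GG Y k := fun α => α (x, y)

section
variable {Y Z : Type} (Γ : Gr Y)

/-- Edges to living letters. -/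
def E (x y : Y) : Prop := Γ.1 y ∧ Γ.2 x y

/-- States of the history automaton. -/
abbrev St (Y Z : Type) : Type := (List Y → Z) × (Y × Y → Option (List Y → Z))

open Classical in
/-- One step of the history automaton. -/
noncomputable def step (x y : Y) (σ : St Y Z) : St Y Z :=
  (fun q => σ.1 (y :: q),
    if Relation.ReflTransGen (E Γ) y x then σ.2 else update σ.2 (x, y) (some σ.1))

/-- Reachable states. -/
inductive Rch (F : List Y → Z) (x0 : Y) : Y → List Y → St Y Z → Prop
  | base : Rch F x0 x0 [] (fun q => F (x0 :: q), fun _ => none)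
  | step {x y r σ} : Rch F x0 x r σ → E Γ x y → Rch F x0 y (r ++ [y]) (step Γ x y σ)

variable {Γ} {F : List Y → Z} {x0 : Y}

theorem Rch.inv {x : Y} {r : List Y} {σ : St Y Z} (h : Rch Γ F x0 x r σ) (h0 : Γ.1 x0) :
    (σ.1 = fun q => F (x0 :: r ++ q)) ∧ r.getLastD x0 = x ∧ Γ.1 x ∧
      ∀ e ψ, σ.2 e = some ψ → Relation.ReflTransGen (E Γ) e.2 x ∧
        ∃ p, p ≠ [] ∧ ψ = fun q => F (p ++ q) := by
  classical
  induction h with
  | base => exact ⟨rfl, rfl, h0, by simp⟩
  | @step x y r σ _ hE ih =>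
    refine ⟨?_, by simp, hE.1, fun e ψ he => ?_⟩
    · funext q
      simp [Pool.Agent.H.MP_99598b_lc.step, ih.1]
    · unfold Pool.Agent.H.MP_99598b_lc.step at he
      dsimp only at he
      split_ifs at he with h1
      · exact ⟨(ih.2.2.2 e ψ he).1.tail hE, (ih.2.2.2 e ψ he).2⟩
      · by_cases h2 : e = (x, y)
        · subst h2
          rw [update_self, Option.some.injEq] at he
          exact ⟨.refl, x0 :: r, by simp, he ▸ ih.1⟩
        · rw [update_of_ne h2] at he
          exact ⟨(ih.2.2.2 e ψ he).1.tail hE, (ih.2.2.2 e ψ he).2⟩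

theorem rch_of_path {r : List Y} (h : Path Γ (x0 :: r)) :
    ∃ σ, Rch Γ F x0 (r.getLastD x0) r σ := by
  induction r using List.reverseRecOn with
  | nil => exact ⟨_, .base⟩
  | append_singleton r y ih =>
    have h1 := List.isChain_append.1 (show List.IsChain Γ.2 ((x0 :: r) ++ [y]) from h.2.2)
    obtain ⟨σ, hσ⟩ := ih ⟨by simp, fun x hx => h.2.1 x (List.mem_append_left [y] hx), h1.1⟩
    rw [List.getLastD_concat]
    refine ⟨_, hσ.step ⟨h.2.1 y (by simp), h1.2.2 _ ?_ y (by simp)⟩⟩
    simp [List.getLast?_cons, List.getLastD_eq_getLast?]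

theorem cyc_of_reach {x y : Y} (hx : Γ.1 x) (hE : E Γ x y)
    (h : Relation.ReflTransGen (E Γ) y x) :
    ∃ l, Path Γ (x :: y :: l) ∧ (y :: l).getLast? = some x := by
  obtain ⟨l, h1, h2⟩ := List.exists_isChain_cons_of_relationReflTransGen h
  refine ⟨l, path_cons.2 ⟨hx, hE.2, by simp, ?_, h1.imp fun _ _ h => h.2⟩, by
    rw [List.getLast?_eq_some_getLast (by simp), h2]⟩
  have h3 : ∀ (l : List Y) (y : Y), Γ.1 y → List.IsChain (E Γ) (y :: l) → ∀ z ∈ y :: l, Γ.1 z := by
    intro l
    induction l with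
    | nil => intro y hy _ z hz; rw [List.mem_singleton.1 hz]; exact hy
    | cons a l ih =>
      intro y hy hc z hz
      rw [List.isChain_cons_cons] at hc
      rcases List.mem_cons.1 hz with rfl | hz
      · exact hy
      · exact ih a hc.1.1 hc.2 z hz
  exact h3 l y hE.1 h1

theorem lab_concat {G : Type} [Group G] (γ : Y → Y → G) (x : Y) (r : List Y) (y : Y) :
    lab γ x (r ++ [y]) = lab γ x r * γ (r.getLastD x) y := by
  induction r generalizing x with
  | nil => simp [lab]
  | cons a r ih => rw [List.cons_append, lab, ih, lab, List.getLastD_cons, mul_assoc]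

theorem key [Finite Y] {K : Type} [Finite K] (κ : List Y → K) {k : ℕ}
    (hk : Nat.card K * (Nat.card K + 1) ^ (Nat.card Y * Nat.card Y) ≤ k)
    (h1 : ∀ p p', p ≠ [] → p' ≠ [] → κ p = κ p' → ∀ q, F (p ++ q) = F (p' ++ q))
    (h2 : ∀ x c, Path Γ (x :: c) → c.getLast? = some x →
      ∃ l, ∀ p q, F (p ++ (x :: (c ++ l)) ++ q) = F (p ++ [x] ++ q))
    {u u' : List Y} (hu : Path Γ u) (hu' : Path Γ u')
    (h : sgn (gen Y k) u = sgn (gen Y k) u') : F u = F u' := by
  classical
  obtain ⟨x0, r, rfl⟩ := List.exists_cons_of_ne_nil hu.1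
  obtain ⟨x0', r', rfl⟩ := List.exists_cons_of_ne_nil hu'.1
  simp only [sgn, Option.some.injEq, Prod.mk.injEq] at h
  obtain ⟨rfl, hl, hlast⟩ := h
  have h0 : Γ.1 x0 := hu.2.1 _ (by simp)
  let c : (List Y → Z) → K := fun ψ =>
    if h : ∃ p, p ≠ [] ∧ ψ = fun q => F (p ++ q) then κ h.choose else κ []
  have hc : ∀ ψ ψ', (∃ p, p ≠ [] ∧ ψ = fun q => F (p ++ q)) →
      (∃ p, p ≠ [] ∧ ψ' = fun q => F (p ++ q)) → c ψ = c ψ' → ψ = ψ' := by
    intro ψ ψ' a b hab
    simp only [c, dif_pos a, dif_pos b] at hab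
    rw [a.choose_spec.2, b.choose_spec.2]
    exact funext (h1 _ _ a.choose_spec.1 b.choose_spec.1 hab)
  obtain ⟨emb⟩ : Nonempty (K × (Y × Y → Option K) ↪ Fin k) := by
    have := Fintype.ofFinite (K × (Y × Y → Option K))
    apply Function.Embedding.nonempty_of_card_le
    rw [← Nat.card_eq_fintype_card, Nat.card_prod, Nat.card_fun, Finite.card_option, Nat.card_prod]
    simpa using hk
  let ι : St Y Z → Fin k := fun σ => emb (c σ.1, fun e => (σ.2 e).map c)
  have hι : ∀ {x r σ x' r' σ'}, Rch Γ F x0 x r σ → Rch Γ F x0 x' r' σ' → ι σ = ι σ' → σ = σ' := by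
    intro x r σ x' r' σ' a b hab
    have h3 := emb.injective hab
    rw [Prod.mk.injEq] at h3
    have a' := a.inv h0
    have b' := b.inv h0
    refine Prod.ext (hc _ _ ⟨x0 :: r, by simp, a'.1⟩ ⟨x0 :: r', by simp, b'.1⟩ h3.1) (funext fun e => ?_)
    have h4 := congrFun h3.2 e
    cases h5 : σ.2 e with
    | none =>
      cases h6 : σ'.2 e with
      | none => rfl
      | some ψ' => simp [h5, h6] at h4
    | some ψ =>
      cases h6 : σ'.2 e with
      | none => simp [h5, h6] at h4
      | some ψ' =>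
        simp only [h5, h6, Option.map_some, Option.some.injEq] at h4
        rw [hc _ _ (a'.2.2.2 e ψ h5).2 (b'.2.2.2 e ψ' h6).2 h4]
  have hstep : ∀ {x y r σ r' σ'}, E Γ x y → Rch Γ F x0 x r σ → Rch Γ F x0 x r' σ' →
      step Γ x y σ = step Γ x y σ' → σ = σ' := by
    intro x y r σ r' σ' hE a b hab
    have a' := a.inv h0
    have b' := b.inv h0
    unfold step at hab
    rw [Prod.mk.injEq] at hab
    by_cases h3 : Relation.ReflTransGen (E Γ) y x
    · rw [if_pos h3, if_pos h3] at hab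
      refine Prod.ext ?_ hab.2
      obtain ⟨l0, p1, p2⟩ := cyc_of_reach a'.2.2.1 hE h3
      obtain ⟨l, hl⟩ := h2 x _ p1 p2
      have h4 : ∀ r, r.getLastD x0 = x → ∀ q,
          F (x0 :: r ++ q) = F (x0 :: r ++ y :: (l0 ++ l ++ q)) := by
        intro r hr q
        obtain ⟨p, hp⟩ : ∃ p, x0 :: r = p ++ [x] := by
          apply List.getLast?_eq_some_iff.1
          rw [← hr]
          simp [List.getLast?_cons, List.getLastD_eq_getLast?]
        rw [hp, ← hl]
        simp
      funext q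
      have h5 := congrFun hab.1 (l0 ++ l ++ q)
      rw [a'.1, b'.1] at h5 ⊢
      exact (h4 r a'.2.1 q).trans (h5.trans (h4 r' b'.2.1 q).symm)
    · rw [if_neg h3, if_neg h3] at hab
      have h4 := congrFun hab.2 (x, y)
      rw [update_self, update_self, Option.some.injEq] at h4
      refine Prod.ext h4 (funext fun e => ?_)
      by_cases h5 : e = (x, y)
      · have h6 : ∀ {r σ}, Rch Γ F x0 x r σ → σ.2 e = none := by
          intro r σ a
          by_contra h7
          obtain ⟨ψ, h8⟩ := Option.ne_none_iff_exists'.1 h7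
          exact h3 (by simpa [h5] using ((a.inv h0).2.2.2 e ψ h8).1)
        rw [h6 a, h6 b]
      · have := congrFun hab.2 e
        rwa [update_of_ne h5, update_of_ne h5] at this
  have hperm : ∀ e : Y × Y, ∃ π : Equiv.Perm (Fin k), E Γ e.1 e.2 →
      ∀ r σ, Rch Γ F x0 e.1 r σ → π (ι σ) = ι (step Γ e.1 e.2 σ) := by
    rintro ⟨x, y⟩
    by_cases hE : E Γ x y
    · have hf : Injective fun σ : {σ // ∃ r, Rch Γ F x0 x r σ} => ι σ.1 := by
        rintro ⟨σ, r, a⟩ ⟨σ', r', b⟩ hab
        exact Subtype.ext (hι a b hab)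
      have hg : Injective fun σ : {σ // ∃ r, Rch Γ F x0 x r σ} => ι (step Γ x y σ.1) := by
        rintro ⟨σ, r, a⟩ ⟨σ', r', b⟩ hab
        exact Subtype.ext (hstep hE a b (hι (a.step hE) (b.step hE) hab))
      have : Finite {σ // ∃ r, Rch Γ F x0 x r σ} := Finite.of_injective _ hf
      obtain ⟨π, hπ⟩ := Equiv.Perm.exists_extending_pair _ _ hf hg
      exact ⟨π, fun _ r σ a => hπ ⟨σ, r, a⟩⟩
    · exact ⟨1, fun h => absurd h hE⟩
  choose π hπ using hperm
  have hrun : ∀ {x r σ}, Rch Γ F x0 x r σ → (lab (gen Y k) x0 r (fun e => (π e)⁻¹))⁻¹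
      (ι (fun q => F (x0 :: q), fun _ => none)) = ι σ := by
    intro x r σ a
    induction a with
    | base => rfl
    | @step x y r σ a hE ih =>
      rw [lab_concat, (a.inv h0).2.1, Pi.mul_apply, mul_inv_rev, Equiv.Perm.mul_apply, ih]
      exact hπ (x, y) hE r σ a
  obtain ⟨σ, a⟩ := rch_of_path (F := F) hu
  obtain ⟨σ', b⟩ := rch_of_path (F := F) hu'
  have h3 := hι a b (by rw [← hrun a, ← hrun b, hl])
  have h4 := congrFun (((a.inv h0).1.symm.trans (congrArg Prod.fst h3)).trans (b.inv h0).1) []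
  simpa using h4

end

end Pool.Agent.H.MP_99598b_lc
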