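import Pool.Agent.H.MP_99598b_lc.B

/-! Bounded witnesses for the operators HP and HPS. -/

namespace Pool.Agent.H.MP_99598b_lc

open Function Pool.Agent.H.MP_88bd66_lc

/-- Number of points for the universal group. -/
def kk (m y : ℕ) : ℕ := (m + 1) ^ 3 * ((m + 1) ^ 3 + 1) ^ (y * y)

/-- Size bound for path semigroups. -/
def rr (y k : ℕ) : ℕ := (y + 2) * (k.factorial ^ (k.factorial ^ (y * y)) * (y + 2)) + 1

/-- Number of graphs. -/
def jj (y : ℕ) : ℕ := 2 ^ y * (2 ^ y) ^ y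

/-- Bound for `y` letters. -/
def bd (m y : ℕ) : ℕ := jj y + rr y (kk m y) + rr y (kk m y) ^ jj y

/-- The global bound. -/
def β (m : ℕ) : ℕ := bd m m + bd m (m + 1 + ((m + 1) * (m + 1) + 1))

theorem kk_le {K : Type} {m y : ℕ} (h : Nat.card K ≤ (m + 1) ^ 3) :
    Nat.card K * (Nat.card K + 1) ^ (y * y) ≤ kk m y :=
  Nat.mul_le_mul h (Nat.pow_le_pow_left (by omega) _)

theorem card_GG (Y : Type) [Finite Y] (k : ℕ) :
    Nat.card (GG Y k) = k.factorial ^ (k.factorial ^ (Nat.card Y * Nat.card Y)) := by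
  rw [Nat.card_fun, Nat.card_fun, Nat.card_prod, Nat.card_perm]
  simp

theorem card_Gr (Y : Type) [Finite Y] : Nat.card (Gr Y) = jj (Nat.card Y) := by
  rw [Nat.card_prod, Nat.card_fun, Nat.card_fun, Nat.card_fun]
  simp [jj]

theorem card_UU' {Y : Type} [Finite Y] (k : ℕ) (Γ : Gr Y) :
    Nat.card (UU Γ (gen Y k)) ≤ rr (Nat.card Y) k := by
  refine (card_UU _ Γ).trans ?_
  rw [card_GG, rr]
  gcongr <;> omega

/-- Embeddable in a 0-simple semigroup of size at most `b`. -/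
def SubZS (b : ℕ) (V : Type) [Semigroup V] : Prop :=
  ∃ (T : Type) (_ : Semigroup T) (_ : Finite T), ZS T ∧ Nat.card T ≤ b ∧
    ∃ f : V →ₙ* T, Injective f

theorem subZS_UU {Y : Type} [Finite Y] (k : ℕ) (Γ : Gr Y) {b : ℕ} (hb : rr (Nat.card Y) k ≤ b) :
    SubZS b (UU Γ (gen Y k)) := by
  obtain ⟨Γ', γ', f, h1, h2⟩ := exists_zs (gen Y k) Γ
  refine ⟨_, inferInstance, inferInstance, h1, (card_UU _ Γ').trans (le_trans ?_ hb), f, h2⟩
  rw [card_GG, rr, Nat.card_sum]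
  simp

/-- A bounded family of bounded semigroups. -/
structure Fam (b : ℕ) (Pr : ∀ (V : Type) [Semigroup V], Prop) where
  J : Type
  fJ : Finite J
  nJ : Nonempty J
  V : J → Type
  sg : ∀ j, Semigroup (V j)
  fin : ∀ j, Finite (V j)
  ne : ∀ j, Nonempty (V j)
  cJ : Nat.card J ≤ b
  cV : ∀ j, Nat.card (V j) ≤ b
  cP : Nat.card (∀ j, V j) ≤ b
  pr : ∀ j, Pr (V j)

attribute [instance] Fam.fJ Fam.nJ Fam.sg Fam.fin Fam.ne

/-- Families of path semigroups. -/
@[reducible] noncomputable def mkFam {Y : Type} [Finite Y] [Nonempty Y] (m : ℕ) {b : ℕ}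
    (hb : bd m (Nat.card Y) ≤ b) (Pr : ∀ (V : Type) [Semigroup V], Prop) (p : Gr Y → Prop)
    (hp : ∃ Γ, p Γ) (h : ∀ Γ, p Γ → Pr (UU Γ (gen Y (kk m (Nat.card Y))))) : Fam b Pr where
  J := {Γ // p Γ}
  fJ := inferInstance
  nJ := ⟨⟨_, hp.choose_spec⟩⟩
  V := fun Γ => UU Γ.1 (gen Y (kk m (Nat.card Y)))
  sg := inferInstance
  fin := inferInstance
  ne := inferInstance
  cJ := by
    refine (Nat.card_le_card_of_injective _ Subtype.val_injective).trans ?_
    rw [card_Gr]; unfold bd at hb; omega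
  cV := fun Γ => (card_UU' _ _).trans (by unfold bd at hb; omega)
  cP := by
    have := Fintype.ofFinite {Γ // p Γ}
    rw [Nat.card_pi]
    refine (Finset.prod_le_pow_card _ _ _ fun Γ _ => card_UU' _ Γ.1).trans ?_
    have h1 : (Finset.univ : Finset {Γ // p Γ}).card ≤ jj (Nat.card Y) := by
      rw [Finset.card_univ, ← Nat.card_eq_fintype_card, ← card_Gr]
      exact Nat.card_le_card_of_injective _ Subtype.val_injective
    refine (Nat.pow_le_pow_right (by unfold rr; omega) h1).trans ?_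
    unfold bd at hb; omega
  pr := fun Γ => h Γ.1 Γ.2

section
variable {I Y M : Type} {S : I → Type} [∀ i, Semigroup (S i)] [∀ i, Nonempty (S i)]
  {zer : ∀ i, S i → Prop} {n : ℕ} [Semigroup M]

/-- Value of a tuple of words. -/
noncomputable def tv (t : Y → ∀ i, S i) (w : I → List Y) : ∀ i, S i :=
  fun i => vl (fun y => t y i) (w i)

theorem tv_append (t : Y → ∀ i, S i) {w w' : I → List Y} (hw : ∀ i, w i ≠ [])
    (hw' : ∀ i, w' i ≠ []) : tv t (fun i => w i ++ w' i) = tv t w * tv t w' :=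
  funext fun i => vl_append _ (hw i) (hw' i)

theorem Nice.ctx {S : Type} [Semigroup S] [Nonempty S] {zer : S → Prop} (h : Nice zer n)
    {τ : Y → S} {x : Y} {c : List Y} (hc : Path (nat zer τ) (x :: c))
    (hl : c.getLast? = some x) (p q : List Y) :
    vl τ (p ++ (x :: (c ++ (List.replicate n c).flatten)) ++ q) = vl τ (p ++ [x] ++ q) :=
  vl_ctx τ (by simp) (by simp) (h.cyc hc hl) p q

theorem gc [Finite I] [Finite Y] [Finite M] (hN : ∀ i, Nice (zer i) n) (t : Y → ∀ i, S i)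
    (π : (∀ i, S i) →ₙ* M) {w w' : I → List Y} (hw : ∀ i, w i ≠ []) (hw' : ∀ i, w' i ≠ [])
    (h : ∀ i, cl (nat (zer i) fun y => t y i) (gen Y (kk (Nat.card M) (Nat.card Y))) (w i) =
      cl (nat (zer i) fun y => t y i) (gen Y (kk (Nat.card M) (Nat.card Y))) (w' i))
    (h1 : ∃ s s', tv t w = s * s') (h2 : ∃ s s', tv t w' = s * s') :
    π (tv t w) = π (tv t w') := by
  classical
  obtain ⟨s1, s1', h1⟩ := h1
  obtain ⟨s2, s2', h2⟩ := h2
  refine (mix_ind (fun v => (∀ l, v l = tv t w l ∨ v l = tv t w' l) ∧ π v = π (tv t w))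
    (tv t w') (tv t w) ⟨fun _ => Or.inl rfl, rfl⟩ ?_).2.symm
  rintro i v ⟨hv, hv'⟩
  refine ⟨fun l => ?_, ?_⟩
  · by_cases hl : l = i
    · subst hl; exact Or.inr (mix_self _ _ _)
    · rw [mix_ne hl]; exact hv l
  have h3 : mix i (tv t w') v = update v i (tv t w' i) :=
    mix_ext i (by rw [mix_self, update_self]) (fun l hl => by rw [mix_ne hl, update_of_ne hl])
  rw [h3, ← hv']
  rcases hv i with h4 | h4
  swap
  · rw [← h4, update_eq_self]
  by_cases hp : Path (nat (zer i) fun y => t y i) (w' i)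
  swap
  · have hp' : ¬Path (nat (zer i) fun y => t y i) (w i) := fun hp' =>
      hp (path_of_cl (hw' i) hp' (h i).symm).1
    rw [(hN i).path_iff (hw' i), not_not] at hp
    rw [(hN i).path_iff (hw i), not_not] at hp'
    rw [show tv t w' i = v i from ((hN i).uniq _ _ hp hp').trans h4.symm, update_eq_self]
  obtain ⟨a, b, hab⟩ : ∃ a b, v = a * b := by
    have h5 : ∀ l, ∃ a b, v l = a * b := fun l => by
      rcases hv l with h5 | h5
      · exact ⟨s1 l, s1' l, by rw [h5, h1]; rfl⟩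
      · exact ⟨s2 l, s2' l, by rw [h5, h2]; rfl⟩
    choose a b h5 using h5
    exact ⟨a, b, funext h5⟩
  obtain ⟨hp', hs⟩ := path_of_cl (hw i) hp (h i)
  have h5 := key (F := fun p => π (update v i (vl (fun y => t y i) p)))
    (fun p => (π (update a i (vl (fun y => t y i) p)), π (update v i (vl (fun y => t y i) p))))
    (kk_le (m := Nat.card M) (by rw [Nat.card_prod]; nlinarith [Nat.zero_le (Nat.card M)]))
    (fun p p' hp hp' he q => by
      rw [Prod.mk.injEq] at he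
      by_cases hq : q = []
      · simpa [hq] using he.2
      · rw [vl_append _ hp hq, vl_append _ hp' hq, hab, update_mul, update_mul, map_mul, map_mul,
          he.1])
    (fun x c hc hl => ⟨_, fun p q => by rw [(hN i).ctx hc hl]⟩) hp' hp hs
  rw [show vl (fun y => t y i) (w i) = v i from h4.symm, update_eq_self] at h5
  exact h5.symm

theorem hps [Finite I] [Finite M] [Nonempty M] (hN : ∀ i, Nice (zer i) n)
    (π : (∀ i, S i) →ₙ* M) (hπ : Surjective π) :
    ∃ F : Fam (β (Nat.card M)) (SubZS (β (Nat.card M))), ∃ π' : (∀ j, F.V j) →ₙ* M,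
      Surjective π' := by
  choose t ht using hπ
  let γ := gen M (kk (Nat.card M) (Nat.card M))
  let T := ∀ Γ : {_Γ : Gr M // True}, UU Γ.1 γ
  let g : I → {_Γ : Gr M // True} := fun i => ⟨nat (zer i) fun y => t y i, trivial⟩
  let φ : M → T := fun x Γ => ⟨cl Γ.1 γ [x], [x], by simp, rfl⟩
  let Γ0 : {_Γ : Gr M // True} := ⟨(fun _ => True, fun _ _ => False), trivial⟩
  have hφ : ∀ x, (φ x Γ0).1 = some (x, 1, x) := fun x => if_pos trivial
  have h1 : ∀ s : T, ∃ w : I → List M, ∀ i, w i ≠ [] ∧ (s (g i)).1 = cl (g i).1 γ (w i) :=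
    fun s => ⟨fun i => (s (g i)).2.choose, fun i => (s (g i)).2.choose_spec⟩
  have h2 : ∀ s : T, ∃ w : I → List M, (∀ i, w i ≠ [] ∧ (s (g i)).1 = cl (g i).1 γ (w i)) ∧
      (∀ x, s = φ x → π (tv t w) = x) ∧ ((∃ a b, s = a * b) → ∃ a b, tv t w = a * b) := by
    intro s
    by_cases h3 : ∃ a b, s = a * b
    · obtain ⟨a, b, rfl⟩ := h3
      obtain ⟨u, hu⟩ := h1 a
      obtain ⟨v, hv⟩ := h1 b
      refine ⟨fun i => u i ++ v i, fun i => ⟨by simp [(hu i).1], ?_⟩, fun x hx => ?_,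
        fun _ => ⟨_, _, tv_append t (fun i => (hu i).1) fun i => (hv i).1⟩⟩
      · rw [cl_append (hu i).1 (hv i).1, ← (hu i).2, ← (hv i).2]; rfl
      · exfalso
        have h4 : (a Γ0).1 * (b Γ0).1 = some (x, 1, x) := by rw [← hφ, ← hx]; rfl
        rcases h5 : (a Γ0).1 with _ | ⟨x1, g1, y1⟩
        · rw [rs_none _ _ (Or.inl h5)] at h4; cases h4
        · rcases h6 : (b Γ0).1 with _ | ⟨x2, g2, y2⟩
          · rw [rs_none _ _ (Or.inr h6)] at h4; cases h4
          · rw [rs_mul' h5 h6 not_false] at h4; cases h4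
    · by_cases h4 : ∃ x, s = φ x
      · obtain ⟨x, rfl⟩ := h4
        refine ⟨fun _ => [x], fun i => ⟨by simp, rfl⟩, fun y hy => ?_, fun h => absurd h h3⟩
        have h5 := hφ x
        rw [hy, hφ] at h5
        cases h5
        exact ht _
      · obtain ⟨w, hw⟩ := h1 s
        exact ⟨w, hw, fun x hx => absurd ⟨x, hx⟩ h4, fun h => absurd h h3⟩
  choose w hw hw1 hw2 using h2
  refine ⟨mkFam (Nat.card M) (by unfold β; omega) _ (fun _ => True) ⟨Γ0.1, trivial⟩
    (fun Γ _ => subZS_UU _ Γ (by unfold β bd; omega)),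
    ⟨fun s => π (tv t (w s)), fun a b => ?_⟩, fun x => ⟨φ x, hw1 _ x rfl⟩⟩
  have h3 := tv_append t (fun i => (hw a i).1) fun i => (hw b i).1
  rw [← map_mul, ← h3]
  refine gc hN t π (fun i => (hw _ i).1) (fun i => by simp [(hw a i).1]) (fun i => ?_)
    (hw2 _ ⟨a, b, rfl⟩) ⟨_, _, h3⟩
  rw [cl_append (hw a i).1 (hw b i).1]
  exact (hw (a * b) i).2.symm.trans (congrArg₂ (· * ·) (hw a i).2 (hw b i).2)

theorem hp [Finite I] [Nonempty I] [Finite M] [Nonempty M] [∀ i, Finite (S i)]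
    (hS : ∀ i, ZS (S i)) (π : (∀ i, S i) →ₙ* M) (hπ : Surjective π) :
    ∃ F : Fam (β (Nat.card M)) ZS, ∃ π' : (∀ j, F.V j) →ₙ* M, Surjective π' := by
  classical
  choose z hz ha hS using hS
  choose a ha using ha
  choose t0 ht using hπ
  have := Fintype.ofFinite I
  have hN : ∀ i, Nice (fun b => b = z i) (ex (Finset.univ.sup fun i => Nat.card (S i))) :=
    fun i => nice_of_zs (hz i) (hS i) (Finset.le_sup (f := fun i => Nat.card (S i))
      (Finset.mem_univ i))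
  let t1 : Option M → ∀ i, S i := fun x => x.elim a t0
  have h1 : ∀ (x y : Option M) i, ∃ c : S i, (t1 x i ≠ z i → t1 y i ≠ z i →
      t1 x i * c * t1 y i ≠ z i) ∧ (c ≠ z i → t1 x i ≠ z i ∧ t1 y i ≠ z i) := by
    intro x y i
    by_cases h : t1 x i ≠ z i ∧ t1 y i ≠ z i
    · obtain ⟨c, d, h2⟩ := hS i _ h.1 (t1 x i)
      obtain ⟨c1, d1, h3⟩ := hS i _ h.1 c
      obtain ⟨c2, d2, h4⟩ := hS i _ h.2 d
      refine ⟨d1 * t1 x i * c2, fun _ _ h5 => h.1 ?_, fun _ => h⟩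
      have h6 : t1 x i = c1 * (t1 x i * (d1 * t1 x i * c2) * t1 y i) * d2 := by
        conv_lhs => rw [h2, h3, h4]
        simp only [mul_assoc]
      rw [h6, h5, (hz i _).2, (hz i _).1]
    · exact ⟨z i, fun h1 h2 => absurd ⟨h1, h2⟩ h, fun h1 => absurd rfl h1⟩
  choose c hc hc' using h1
  let Y := Option M ⊕ (Option M × Option M) ⊕ Unit
  let t : Y → ∀ i, S i := Sum.elim t1 (Sum.elim (fun p => c p.1 p.2) fun _ => z)
  have hY : Nat.card Y = Nat.card M + 1 + ((Nat.card M + 1) * (Nat.card M + 1) + 1) := by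
    rw [Nat.card_sum, Nat.card_sum, Nat.card_prod, Finite.card_option]
    simp
  have hg : ∀ i, Good (nat (fun b => b = z i) fun y => t y i) := by
    intro i
    refine ⟨?_, ⟨Sum.inl none, ha i⟩, Sum.inr (Sum.inr ()), fun h => h rfl⟩
    let Cn : Y → Y → Prop := fun x y =>
      ∃ l, Path (nat (fun b => b = z i) fun y => t y i) (x :: l ++ [y])
    have h2 : ∀ x y u, Cn x y → Cn y u → Cn x u := by
      rintro x y u ⟨l, hl⟩ ⟨l', hl'⟩
      exact ⟨l ++ y :: l', by simpa using path_glue hl hl'⟩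
    have h3 : ∀ x y, t1 x i ≠ z i → t1 y i ≠ z i → Cn (Sum.inl x) (Sum.inl y) := by
      intro x y hx hy
      exact ⟨[Sum.inr (Sum.inl (x, y))], ((hN i).path_iff (by simp)).2 (hc x y i hx hy)⟩
    have h4 : ∀ y, t y i ≠ z i → (∃ x, t1 x i ≠ z i ∧ Cn y (Sum.inl x)) ∧
        ∃ x, t1 x i ≠ z i ∧ Cn (Sum.inl x) y := by
      rintro (y | ⟨x, y⟩ | _) hy
      · exact ⟨⟨y, hy, h3 y y hy hy⟩, y, hy, h3 y y hy hy⟩
      · have h5 := hc' x y i hy
        have h6 := hc x y i h5.1 h5.2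
        refine ⟨⟨y, h5.2, [], ((hN i).path_iff (by simp)).2 fun h7 => h6 ?_⟩,
          x, h5.1, [], ((hN i).path_iff (by simp)).2 fun h7 => h6 ?_⟩
        · rw [mul_assoc, show c x y i * t1 y i = z i from h7, (hz i _).2]
        · rw [show t1 x i * c x y i = z i from h7, (hz i _).1]
      · exact absurd rfl hy
    intro x y hx hy
    obtain ⟨u, hu, h5⟩ := (h4 x hx).1
    obtain ⟨v, hv, h6⟩ := (h4 y hy).2
    exact h2 _ _ _ (h2 _ _ _ h5 (h3 u v hu hv)) h6
  have hpr : ∀ v : ∀ i, S i, ∃ s s', v = s * s' := by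
    intro v
    choose c d h using fun i => hS i _ (ha i) (v i)
    exact ⟨c * a, d, funext h⟩
  let γ := gen Y (kk (Nat.card M) (Nat.card Y))
  let T := ∀ Γ : {Γ : Gr Y // Good Γ}, UU Γ.1 γ
  let g : I → {Γ : Gr Y // Good Γ} := fun i => ⟨_, hg i⟩
  have h1 : ∀ s : T, ∃ w : I → List Y, ∀ i, w i ≠ [] ∧ (s (g i)).1 = cl (g i).1 γ (w i) :=
    fun s => ⟨fun i => (s (g i)).2.choose, fun i => (s (g i)).2.choose_spec⟩
  choose w hw using h1
  refine ⟨mkFam (Y := Y) (Nat.card M) (by rw [hY]; unfold β; omega) _ Good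
    ⟨_, hg (Classical.arbitrary I)⟩ (fun Γ h => zs_UU _ h),
    ⟨fun s => π (tv t (w s)), fun a b => ?_⟩, fun x => ?_⟩
  · rw [← map_mul, ← tv_append t (fun i => (hw a i).1) fun i => (hw b i).1]
    refine gc hN t π (fun i => (hw _ i).1) (fun i => by simp [(hw a i).1]) (fun i => ?_)
      (hpr _) (hpr _)
    rw [cl_append (hw a i).1 (hw b i).1]
    exact (hw (a * b) i).2.symm.trans (congrArg₂ (· * ·) (hw a i).2 (hw b i).2)
  · refine ⟨fun Γ => ⟨cl Γ.1 γ [Sum.inl (some x)], _, by simp, rfl⟩, Eq.trans ?_ (ht x)⟩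
    exact gc hN t π (w' := fun _ => [Sum.inl (some x)]) (fun i => (hw _ i).1) (fun i => by simp)
      (fun i => (hw _ i).2.symm) (hpr _) (hpr _)

end

end Pool.Agent.H.MP_99598b_lc
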